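import Pool.Agent.W5h2.PA.Poly

/-!
# The stabilizers of paths of length seven
-/

set_option autoImplicit false

namespace Pool.Agent.W5h2.PA

open MvPolynomial

variable {k : Type} [Field k]

theorem pow_lin {κ : GA2 k} {q : R2 k} {d e : k} (h : κ q = C d * q + C e) (N : ℕ) :
    (κ ^ N) q = C (d ^ N) * q + C ((∑ i ∈ Finset.range N, d ^ i) * e) := by
  have hC : ∀ z : k, κ (C z) = C z := fun z => κ.commutes z
  induction N with
  | zero => simp
  | succ N ih =>
    rw [pow_succ']
    show κ ((κ ^ N) q) = _
    rw [ih, map_add, map_mul, hC, hC, h, Finset.sum_range_succ]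
    simp only [map_add, map_mul, pow_succ]
    ring

theorem pow_fix {κ : GA2 k} {q : R2 k} {d e : k} (h : κ q = C d * q + C e) (N : ℕ)
    (h1 : (d ≠ 1 ∧ d ^ N = 1) ∨ (d = 1 ∧ (N : k) * e = 0)) : (κ ^ N) q = q := by
  rw [pow_lin h]
  rcases h1 with ⟨h1, h2⟩ | ⟨rfl, h2⟩
  · have h3 : (∑ i ∈ Finset.range N, d ^ i) * (d - 1) = 0 := by
      rw [geom_sum_mul, h2, sub_self]
    have h4 : (∑ i ∈ Finset.range N, d ^ i) = 0 :=
      (mul_eq_zero.1 h3).resolve_right (sub_ne_zero.2 h1)
    rw [h2, h4]
    simp
  · simp [h2]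

theorem lead {Q : Polynomial k} {a d e z : k} (hd : d ≠ 0) (hQ : 2 ≤ Q.natDegree)
    (h : Q.comp (Polynomial.C d * Polynomial.X + Polynomial.C e) =
      Polynomial.C a * Q + Polynomial.C z) : d ^ Q.natDegree = a := by
  have hQ0 : Q ≠ 0 := by
    rintro rfl
    simp at hQ
  have h1 : (Polynomial.C d * Polynomial.X + Polynomial.C e).natDegree = 1 :=
    Polynomial.natDegree_linear hd
  have h2 : (Q.comp (Polynomial.C d * Polynomial.X + Polynomial.C e)).coeff Q.natDegree =
      Q.leadingCoeff * d ^ Q.natDegree := by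
    have h3 := Polynomial.coeff_comp_degree_mul_degree (p := Q)
      (q := Polynomial.C d * Polynomial.X + Polynomial.C e) (by rw [h1]; exact one_ne_zero)
    rw [h1, mul_one, Polynomial.leadingCoeff_linear hd] at h3
    exact h3
  rw [h, Polynomial.coeff_add, Polynomial.coeff_C_mul, Polynomial.coeff_C_of_ne_zero (by omega),
    add_zero] at h2
  have h4 : Q.leadingCoeff ≠ 0 := Polynomial.leadingCoeff_ne_zero.2 hQ0
  have h5 : a * Q.leadingCoeff = d ^ Q.natDegree * Q.leadingCoeff := by
    rw [mul_comm (d ^ _)]
    exact h2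
  exact (mul_right_cancel₀ h4 h5).symm

theorem shift [CharZero k] {Q : Polynomial k} {e z : k} (hQ : 2 ≤ Q.natDegree)
    (h : Q.comp (Polynomial.X + Polynomial.C e) = Q + Polynomial.C z) : e = 0 := by
  by_contra he
  have h1 : ∀ j : ℕ, Q.eval ((j : k) * e) = Q.eval 0 + j * z := by
    intro j
    induction j with
    | zero => simp
    | succ j ih =>
      have h2 := congrArg (Polynomial.eval ((j : k) * e)) h
      rw [Polynomial.eval_comp] at h2
      simp only [Polynomial.eval_add, Polynomial.eval_X, Polynomial.eval_C] at h2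
      push_cast
      rw [add_mul, one_mul, h2, ih]
      ring
  have h2 : Q = Polynomial.C (z / e) * Polynomial.X + Polynomial.C (Q.eval 0) := by
    apply Polynomial.eq_of_infinite_eval_eq
    refine Set.Infinite.mono (s := Set.range fun j : ℕ => (j : k) * e) ?_ ?_
    · rintro _ ⟨j, rfl⟩
      show Q.eval ((j : k) * e) = _
      rw [h1]
      simp only [Polynomial.eval_add, Polynomial.eval_mul, Polynomial.eval_X, Polynomial.eval_C]
      field_simp
      ring
    · refine Set.infinite_range_of_injective fun i j hij => ?_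
      have := mul_right_cancel₀ he hij
      exact_mod_cast this
  rw [h2] at hQ
  have := Polynomial.natDegree_linear_le (a := z / e) (b := Q.eval 0)
  omega

/-- `q` spans with `1` a space which is preserved by `κ` -/
def Pres (κ : GA2 k) (q : R2 k) (d e : k) : Prop := κ q = C d * q + C e

theorem side {κ : GA2 k} {F G : R2 k} {a c d e l m s : k} {Q : Polynomial k} (hF : Pres κ F a c)
    (hG : Pres κ G d e) (π1 π2 : R2 k →ₐ[k] Polynomial k) (h11 : π1 F = 0)
    (h12 : π1 G = Polynomial.X) (h21 : π2 F = Polynomial.X) (h22 : π2 G = 0) (hs : s ≠ 0)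
    (hP : Pres κ (C s * F + Polynomial.aeval G Q) l m) :
    ∃ z, Q.comp (Polynomial.C d * Polynomial.X + Polynomial.C e) =
      Polynomial.C a * Q + Polynomial.C z := by
  have hC : ∀ z : k, κ (C z) = C z := fun z => κ.commutes z
  have hc1 : ∀ z : k, π1 (C z) = Polynomial.C z := fun z => π1.commutes z
  have hc2 : ∀ z : k, π2 (C z) = Polynomial.C z := fun z => π2.commutes z
  unfold Pres at hF hG hP
  rw [map_add, map_mul, hC, map_aeval, hF, hG] at hP
  have e1 := congrArg π1 hP
  have e2 := congrArg π2 hP
  rw [map_add, map_add, ← Polynomial.aeval_algHom_apply, map_mul, map_mul, map_add, map_mul,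
    map_add, map_mul, map_add, map_mul, ← Polynomial.aeval_algHom_apply, hc1, hc1, hc1, hc1, hc1,
    hc1, hc1, h11, h12] at e1
  rw [map_add, map_add, ← Polynomial.aeval_algHom_apply, map_mul, map_mul, map_add, map_mul,
    map_add, map_mul, map_add, map_mul, ← Polynomial.aeval_algHom_apply, hc2, hc2, hc2, hc2, hc2,
    hc2, hc2, h21, h22] at e2
  -- the coefficient of `F`
  have h0 : l = a := by
    have e3 := congrArg (fun r : Polynomial k => r.coeff 1) e2
    have e4 : Polynomial.aeval (Polynomial.C d * (0 : Polynomial k) + Polynomial.C e) Q =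
        Polynomial.C (Polynomial.eval e Q) := by
      rw [mul_zero, zero_add]
      have := Polynomial.aeval_algebraMap_apply (Polynomial k) e Q
      rw [Polynomial.algebraMap_eq] at this
      rw [this]
      simp
    have e5 : Polynomial.aeval (0 : Polynomial k) Q = Polynomial.C (Polynomial.eval 0 Q) := by
      have := Polynomial.aeval_algebraMap_apply (Polynomial k) (0 : k) Q
      rw [Polynomial.algebraMap_eq, map_zero] at this
      rw [this]
      simp
    simp only [e4, e5] at e3
    simp at e3
    have e6 : l * s = a * s := by rw [mul_comm a]; exact e3.symm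
    exact mul_right_cancel₀ hs e6
  have e7 : Polynomial.aeval (Polynomial.C d * Polynomial.X + Polynomial.C e) Q =
      Q.comp (Polynomial.C d * Polynomial.X + Polynomial.C e) := rfl
  have e8 : Polynomial.aeval (Polynomial.X : Polynomial k) Q = Q := Polynomial.aeval_X_left_apply Q
  rw [e7, e8, mul_zero, mul_zero, zero_add, zero_add, h0] at e1
  refine ⟨m - s * c, ?_⟩
  rw [map_sub, map_mul]
  linear_combination e1

end Pool.Agent.W5h2.PA
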