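import Pool.Agent.W5h2.PA.Fix

/-!
# The stabilizers of paths of length seven, second part
-/

set_option autoImplicit false

namespace Pool.Agent.W5h2.PA

open MvPolynomial

variable {k : Type} [Field k]

/-- the second component of `ε β` -/
theorem comp_form {ε β : GA2 k} (hε : ε ∈ triangular k) (hε' : ε ∉ affine k) (hβ : β ∈ affine k)
    (hβ' : β ∉ triangular k) : ∃ (s : k) (Q : Polynomial k), s ≠ 0 ∧ 2 ≤ Q.natDegree ∧
      (ε * β) (X 1) = C s * X 0 + Polynomial.aeval (X 1 : R2 k) Q := by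
  obtain ⟨a, b, c, p, ha, hb, h⟩ := hε
  obtain ⟨u, v, w, h1⟩ := (hβ 1).1
  have hu : u ≠ 0 := by
    rintro rfl
    exact hβ' (tri_of_aff hβ (v := v) (w := w) (by rw [h1, map_zero, zero_mul, zero_add]))
  have hp : 2 ≤ p.natDegree := by
    by_contra hcon
    exact hε' (aff_of_tri ha hb h (by omega))
  refine ⟨u * a, Polynomial.C u * p + (Polynomial.C (v * b) * Polynomial.X +
    Polynomial.C (v * c + w)), mul_ne_zero hu ha, ?_, ?_⟩
  · have h2 : (Polynomial.C u * p).natDegree = p.natDegree := Polynomial.natDegree_C_mul hu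
    have h3 : (Polynomial.C (v * b) * Polynomial.X + Polynomial.C (v * c + w)).natDegree ≤ 1 :=
      Polynomial.natDegree_linear_le
    rw [Polynomial.natDegree_add_eq_left_of_natDegree_lt (by rw [h2]; omega), h2]
    exact hp
  · show ε (β (X 1)) = _
    rw [h1, map_lin, h.1, h.2]
    simp only [map_add, map_mul, Polynomial.aeval_C, Polynomial.aeval_X,
      MvPolynomial.algebraMap_eq]
    ring

/-- one half of the path -/
theorem half_fix {κ α ε β : GA2 k} (hα : α ∈ affine k) (hα' : α ∉ triangular k)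
    (hε : ε ∈ triangular k) (hε' : ε ∉ affine k) (hβ : β ∈ affine k) (hβ' : β ∉ triangular k)
    {a c d e l m : k} (h1 : Pres κ (α (X 1)) a c) (h2 : Pres κ (X 1) d e)
    (h3 : Pres κ ((ε * β) (X 1)) l m) :
    ∃ (Q : Polynomial k) (z : k), 2 ≤ Q.natDegree ∧
      Q.comp (Polynomial.C d * Polynomial.X + Polynomial.C e) =
        Polynomial.C a * Q + Polynomial.C z := by
  obtain ⟨s, Q, hs, hQ, h4⟩ := comp_form hε hε' hβ hβ'
  obtain ⟨u, v, w, h5⟩ := (hα 1).1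
  have hu : u ≠ 0 := by
    rintro rfl
    exact hα' (tri_of_aff hα (v := v) (w := w) (by rw [h5, map_zero, zero_mul, zero_add]))
  have e2 : (C u⁻¹ * C u : R2 k) = 1 := by rw [← map_mul, inv_mul_cancel₀ hu, map_one]
  have e3 : (Polynomial.C u * Polynomial.C u⁻¹ : Polynomial k) = 1 := by
    rw [← map_mul, mul_inv_cancel₀ hu, map_one]
  have e1 : (X 0 : R2 k) = C u⁻¹ * α (X 1) - C (u⁻¹ * v) * X 1 - C (u⁻¹ * w) := by
    rw [h5, mul_add, mul_add, ← mul_assoc, e2, map_mul, map_mul]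
    ring
  obtain ⟨Q', hQ'⟩ : ∃ Q' : Polynomial k, Q' = Q - (Polynomial.C (s * (u⁻¹ * v)) * Polynomial.X +
    Polynomial.C (s * (u⁻¹ * w))) := ⟨_, rfl⟩
  have hd : Q'.natDegree = Q.natDegree := by
    rw [hQ']
    refine Polynomial.natDegree_sub_eq_left_of_natDegree_lt ?_
    have := Polynomial.natDegree_linear_le (a := s * (u⁻¹ * v)) (b := s * (u⁻¹ * w))
    omega
  have h6 : (ε * β) (X 1) = C (s * u⁻¹) * α (X 1) + Polynomial.aeval (X 1 : R2 k) Q' := by
    rw [h4, hQ']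
    conv_lhs => rw [e1]
    simp only [map_add, map_mul, map_sub, Polynomial.aeval_C, Polynomial.aeval_X,
      MvPolynomial.algebraMap_eq]
    ring
  rw [h6] at h3
  obtain ⟨π1, hπ1⟩ : ∃ π1 : R2 k →ₐ[k] Polynomial k, π1 = MvPolynomial.aeval
    (fun i : Fin 2 => if i = 0 then - (Polynomial.C (u⁻¹ * v) * Polynomial.X) -
      Polynomial.C (u⁻¹ * w) else Polynomial.X) := ⟨_, rfl⟩
  obtain ⟨π2, hπ2⟩ : ∃ π2 : R2 k →ₐ[k] Polynomial k, π2 = MvPolynomial.aeval
    (fun i : Fin 2 => if i = 0 then Polynomial.C u⁻¹ * Polynomial.X -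
      Polynomial.C (u⁻¹ * w) else 0) := ⟨_, rfl⟩
  have p10 : π1 (X 0) = - (Polynomial.C (u⁻¹ * v) * Polynomial.X) - Polynomial.C (u⁻¹ * w) := by
    rw [hπ1, MvPolynomial.aeval_X, if_pos rfl]
  have p11 : π1 (X 1) = Polynomial.X := by
    rw [hπ1, MvPolynomial.aeval_X, if_neg one_ne_zero]
  have p20 : π2 (X 0) = Polynomial.C u⁻¹ * Polynomial.X - Polynomial.C (u⁻¹ * w) := by
    rw [hπ2, MvPolynomial.aeval_X, if_pos rfl]
  have p21 : π2 (X 1) = 0 := by
    rw [hπ2, MvPolynomial.aeval_X, if_neg one_ne_zero]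
  have hc1 : ∀ z : k, π1 (C z) = Polynomial.C z := fun z => π1.commutes z
  have hc2 : ∀ z : k, π2 (C z) = Polynomial.C z := fun z => π2.commutes z
  have q1 : π1 (α (X 1)) = 0 := by
    rw [h5, map_add, map_add, map_mul, map_mul, hc1, hc1, hc1, p10, p11, map_mul, map_mul]
    linear_combination (-(Polynomial.C v * Polynomial.X) - Polynomial.C w) * e3
  have q2 : π2 (α (X 1)) = Polynomial.X := by
    rw [h5, map_add, map_add, map_mul, map_mul, hc2, hc2, hc2, p20, p21, map_mul]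
    linear_combination (Polynomial.X - Polynomial.C w) * e3
  obtain ⟨z, hz⟩ := side h1 h2 π1 π2 q1 p11 q2 p21 (mul_ne_zero hs (inv_ne_zero hu)) h3
  exact ⟨Q', z, by rw [hd]; exact hQ, hz⟩

theorem pres_ne {κ φ : GA2 k} {d e : k} (h : Pres κ (φ (X 1)) d e) : d ≠ 0 := by
  rintro rfl
  have h1 := deg_pos (κ * φ) 1
  have h2 : (κ * φ) (X 1) = C e := by
    show κ (φ (X 1)) = _
    rw [h, map_zero, zero_mul, zero_add]
  rw [h2, totalDegree_C] at h1
  omega

theorem eq_one_of_fix {κ α : GA2 k} (hα : α ∈ affine k) (hα' : α ∉ triangular k)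
    (g1 : κ (X 1) = X 1) (g2 : κ (α (X 1)) = α (X 1)) : κ = 1 := by
  obtain ⟨u, v, w, h5⟩ := (hα 1).1
  have hu : u ≠ 0 := by
    rintro rfl
    exact hα' (tri_of_aff hα (v := v) (w := w) (by rw [h5, map_zero, zero_mul, zero_add]))
  have e2 : (C u⁻¹ * C u : R2 k) = 1 := by rw [← map_mul, inv_mul_cancel₀ hu, map_one]
  have g0 : κ (X 0) = X 0 := by
    rw [h5, map_lin, g1] at g2
    have h6 : C u * κ (X 0) = C u * X 0 := by linear_combination g2
    have h7 := congrArg (fun q => C u⁻¹ * q) h6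
    simp only [← mul_assoc, e2, one_mul] at h7
    exact h7
  apply AlgEquiv.ext
  intro q
  have h8 : ((κ : GA2 k) : R2 k →ₐ[k] R2 k) = AlgHom.id k (R2 k) := by
    apply MvPolynomial.algHom_ext
    intro i
    fin_cases i
    · exact g0
    · exact g1
  exact congrArg (fun f : R2 k →ₐ[k] R2 k => f q) h8

/-- both halves of the path -/
theorem two_sides {κ α ε β ε' β' : GA2 k} (hα : α ∈ affine k) (hα' : α ∉ triangular k)
    (hε : ε ∈ triangular k) (hεa : ε ∉ affine k) (hβ : β ∈ affine k) (hβe : β ∉ triangular k)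
    (hε' : ε' ∈ triangular k) (hεa' : ε' ∉ affine k) (hβ' : β' ∈ affine k)
    (hβe' : β' ∉ triangular k) {a c d e l m l' m' : k} (h2 : Pres κ (X 1) d e)
    (h1 : Pres κ (α (X 1)) a c) (h3 : Pres κ ((ε * β) (X 1)) l m)
    (h4 : Pres κ ((α * ε' * β') (X 1)) l' m') :
    d ≠ 0 ∧ a ≠ 0 ∧ ∃ (Q Q' : Polynomial k) (z z' : k), 2 ≤ Q.natDegree ∧ 2 ≤ Q'.natDegree ∧
      Q.comp (Polynomial.C d * Polynomial.X + Polynomial.C e) =
        Polynomial.C a * Q + Polynomial.C z ∧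
      Q'.comp (Polynomial.C a * Polynomial.X + Polynomial.C c) =
        Polynomial.C d * Q' + Polynomial.C z' := by
  have hd : d ≠ 0 := pres_ne (φ := 1) h2
  have ha : a ≠ 0 := pres_ne h1
  obtain ⟨Q, z, hQ, hz⟩ := half_fix hα hα' hε hεa hβ hβe h1 h2 h3
  -- the other side
  obtain ⟨Q', z', hQ', hz'⟩ : ∃ (Q : Polynomial k) (z : k), 2 ≤ Q.natDegree ∧
      Q.comp (Polynomial.C a * Polynomial.X + Polynomial.C c) =
        Polynomial.C d * Q + Polynomial.C z := by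
    have hC : ∀ (φ : GA2 k) (z : k), φ (C z) = C z := fun φ z => φ.commutes z
    have hcj : ∀ (q : R2 k) (x y : k), Pres κ (α q) x y → Pres (α⁻¹ * κ * α) q x y := by
      intro q x y hq
      show α⁻¹ (κ (α q)) = _
      rw [hq, map_add, map_mul, hC, hC]
      congr 2
      exact α.symm_apply_apply q
    have hα2 : α (α⁻¹ (X 1)) = X 1 := α.apply_symm_apply _
    refine half_fix (κ := α⁻¹ * κ * α) (α := α⁻¹) (inv_mem hα)
      (fun h => hα' (by simpa using inv_mem h)) hε' hεa' hβ' hβe' (c := e) (l := l') (m := m') ?_ ?_ ?_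
    · exact hcj _ _ _ (by rw [hα2]; exact h2)
    · exact hcj _ _ _ h1
    · refine hcj _ _ _ ?_
      exact h4
  exact ⟨hd, ha, Q, Q', z, z', hQ, hQ', hz, hz'⟩

/-- the element `κ` has finite order -/
theorem fin_ord {κ α ε β ε' β' : GA2 k} (hα : α ∈ affine k) (hα' : α ∉ triangular k)
    (hε : ε ∈ triangular k) (hεa : ε ∉ affine k) (hβ : β ∈ affine k) (hβe : β ∉ triangular k)
    (hε' : ε' ∈ triangular k) (hεa' : ε' ∉ affine k) (hβ' : β' ∈ affine k)
    (hβe' : β' ∉ triangular k) {a c d e l m l' m' : k} (h2 : Pres κ (X 1) d e)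
    (h1 : Pres κ (α (X 1)) a c) (h3 : Pres κ ((ε * β) (X 1)) l m)
    (h4 : Pres κ ((α * ε' * β') (X 1)) l' m') : ∃ N : ℕ, 0 < N ∧ κ ^ N = 1 := by
  obtain ⟨hd, ha, Q, Q', z, z', hQ, hQ', hz, hz'⟩ := two_sides hα hα' hε hεa hβ hβe hε' hεa' hβ' hβe'
    h2 h1 h3 h4
  have f1 := lead hd hQ hz
  have f2 := lead ha hQ' hz'
  -- the exponent
  obtain ⟨N, hN, n1, n2⟩ : ∃ N : ℕ, 0 < N ∧ ((d ≠ 1 ∧ d ^ N = 1) ∨ (d = 1 ∧ (N : k) * e = 0)) ∧
      ((a ≠ 1 ∧ a ^ N = 1) ∨ (a = 1 ∧ (N : k) * c = 0)) := by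
    rcases eq_or_ne d 1 with hd1 | hd1
    · have ha1 : a = 1 := by rw [← f1, hd1, one_pow]
      rcases eq_or_ne (ringChar k) 0 with hp | hp
      · have : CharZero k := by
          have h5 := ringChar.charP k
          rw [hp] at h5
          exact CharP.charP_to_charZero k
        rw [hd1, ha1, map_one, one_mul, one_mul] at hz hz'
        have he := shift hQ hz
        have hc := shift hQ' hz'
        exact ⟨1, one_pos, Or.inr ⟨hd1, by rw [he, mul_zero]⟩, Or.inr ⟨ha1, by rw [hc, mul_zero]⟩⟩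
      · refine ⟨ringChar k, Nat.pos_of_ne_zero hp, Or.inr ⟨hd1, ?_⟩, Or.inr ⟨ha1, ?_⟩⟩
        · rw [ringChar.Nat.cast_ringChar, zero_mul]
        · rw [ringChar.Nat.cast_ringChar, zero_mul]
    · have ha1 : a ≠ 1 := by
        rintro rfl
        rw [one_pow] at f2
        exact hd1 f2.symm
      have h5 : 4 ≤ Q.natDegree * Q'.natDegree := Nat.mul_le_mul hQ hQ'
      obtain ⟨N, hN⟩ : ∃ N, Q.natDegree * Q'.natDegree = N + 1 :=
        ⟨Q.natDegree * Q'.natDegree - 1, by omega⟩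
      refine ⟨N, by omega, Or.inl ⟨hd1, ?_⟩, Or.inl ⟨ha1, ?_⟩⟩
      · have h6 : d ^ (Q.natDegree * Q'.natDegree) = d := by rw [pow_mul, f1, f2]
        rw [hN, pow_succ] at h6
        exact mul_right_cancel₀ hd (by rw [h6, one_mul])
      · have h6 : a ^ (Q.natDegree * Q'.natDegree) = a := by rw [mul_comm, pow_mul, f2, f1]
        rw [hN, pow_succ] at h6
        exact mul_right_cancel₀ ha (by rw [h6, one_mul])
  refine ⟨N, hN, ?_⟩
  have g1 : (κ ^ N) (X 1) = X 1 := pow_fix h2 N n1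
  have g2 : (κ ^ N) (α (X 1)) = α (X 1) := pow_fix h1 N n2
  exact eq_one_of_fix hα hα' g1 g2

/-- in characteristic zero an element with first coefficient one is trivial -/
theorem triv_of_one [CharZero k] {κ α ε β ε' β' : GA2 k} (hα : α ∈ affine k)
    (hα' : α ∉ triangular k)
    (hε : ε ∈ triangular k) (hεa : ε ∉ affine k) (hβ : β ∈ affine k) (hβe : β ∉ triangular k)
    (hε' : ε' ∈ triangular k) (hεa' : ε' ∉ affine k) (hβ' : β' ∈ affine k)
    (hβe' : β' ∉ triangular k) {a c e l m l' m' : k} (h2 : Pres κ (X 1) 1 e)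
    (h1 : Pres κ (α (X 1)) a c) (h3 : Pres κ ((ε * β) (X 1)) l m)
    (h4 : Pres κ ((α * ε' * β') (X 1)) l' m') : κ = 1 := by
  obtain ⟨hd, ha, Q, Q', z, z', hQ, hQ', hz, hz'⟩ := two_sides hα hα' hε hεa hβ hβe hε' hεa' hβ' hβe'
    h2 h1 h3 h4
  have f1 := lead hd hQ hz
  rw [one_pow] at f1
  subst f1
  rw [map_one, one_mul, one_mul] at hz hz'
  have he := shift hQ hz
  have hc := shift hQ' hz'
  have g1 : (κ ^ 1) (X 1) = X 1 := pow_fix h2 1 (Or.inr ⟨rfl, by rw [he, mul_zero]⟩)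
  have g2 : (κ ^ 1) (α (X 1)) = α (X 1) := pow_fix h1 1 (Or.inr ⟨rfl, by rw [hc, mul_zero]⟩)
  have := eq_one_of_fix hα hα' g1 g2
  rwa [pow_one] at this

/-- the stabilizers of paths of length seven -/
theorem path_data {u w : Vx (tA k) (tE k)} (p : (TT k).Walk u w) (hp : p.IsPath)
    (hl : p.length = 7) : ∃ ψ : tame k, ∀ g : tame k, (∀ v ∈ p.support, g • v = v) →
      ∃ d e : k, Pres ((ψ⁻¹ * g * ψ : tame k) : GA2 k) (X 1) d e ∧
        (∃ N : ℕ, 0 < N ∧ ((ψ⁻¹ * g * ψ : tame k) : GA2 k) ^ N = 1) ∧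
        (CharZero k → d = 1 → ((ψ⁻¹ * g * ψ : tame k) : GA2 k) = 1) := by
  obtain ⟨ψ, α, hα, hα', s1, s2, ⟨ε, hε, hε', β, hβ, hβ', s3⟩, ⟨ε1, hε1, hε1', β1, hβ1, hβ1', s4⟩⟩ :=
    seven p hp hl
  refine ⟨ψ, fun g hg => ?_⟩
  have key : ∀ x : tame k, g • (Sum.inr ((ψ * x : tame k) : tame k ⧸ tE k) : Vx (tA k) (tE k)) =
      Sum.inr ((ψ * x : tame k) : tame k ⧸ tE k) →
      ∃ d e : k, Pres ((ψ⁻¹ * g * ψ : tame k) : GA2 k) ((x : GA2 k) (X 1)) d e := by
    intro x hx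
    have h1 : ((g * (ψ * x) : tame k) : tame k ⧸ tE k) = ((ψ * x : tame k) : tame k ⧸ tE k) :=
      Sum.inr.inj hx
    rw [eq_comm, QuotientGroup.eq] at h1
    obtain ⟨a, b, c, q, -, -, -, h2⟩ := Subgroup.mem_subgroupOf.1 h1
    refine ⟨b, c, ?_⟩
    have h3 : (((ψ * x)⁻¹ * (g * (ψ * x)) : tame k) : GA2 k) =
        (x : GA2 k)⁻¹ * ((ψ⁻¹ * g * ψ : tame k) : GA2 k) * (x : GA2 k) := by
      push_cast
      group
    rw [h3] at h2
    obtain ⟨κ, hκ⟩ : ∃ κ, κ = ((ψ⁻¹ * g * ψ : tame k) : GA2 k) := ⟨_, rfl⟩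
    rw [← hκ] at h2 ⊢
    have h4 : (x : GA2 k) (((x : GA2 k)⁻¹ * κ * (x : GA2 k)) (X 1)) = κ ((x : GA2 k) (X 1)) :=
      (x : GA2 k).apply_symm_apply _
    rw [h2] at h4
    have hC : ∀ z : k, (x : GA2 k) (C z) = C z := fun z => (x : GA2 k).commutes z
    rw [map_add, map_mul, hC, hC] at h4
    exact h4.symm
  have m1 : ∀ {x : tame k}, x ∈ tA k → (x : GA2 k) ∈ affine k := fun h => Subgroup.mem_subgroupOf.1 h
  have m2 : ∀ {x : tame k}, x ∈ tE k → (x : GA2 k) ∈ triangular k :=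
    fun h => Subgroup.mem_subgroupOf.1 h
  have m3 : ∀ {x : tame k}, x ∉ tA k → (x : GA2 k) ∉ affine k :=
    fun h h' => h (Subgroup.mem_subgroupOf.2 h')
  have m4 : ∀ {x : tame k}, x ∉ tE k → (x : GA2 k) ∉ triangular k :=
    fun h h' => h (Subgroup.mem_subgroupOf.2 h')
  obtain ⟨d, e, k1⟩ := key 1 (by rw [mul_one]; exact hg _ s1)
  obtain ⟨a, c, k2⟩ := key α (hg _ s2)
  obtain ⟨l, m, k3⟩ := key (ε * β) (by rw [← mul_assoc]; exact hg _ s3)
  obtain ⟨l', m', k4⟩ := key (α * ε1 * β1) (by rw [← mul_assoc, ← mul_assoc]; exact hg _ s4)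
  refine ⟨d, e, k1, fin_ord (m1 hα) (m4 hα') (m2 hε) (m3 hε') (m1 hβ) (m4 hβ') (m2 hε1)
    (m3 hε1') (m1 hβ1) (m4 hβ1') k1 k2 k3 k4, ?_⟩
  intro _ hd
  subst hd
  exact triv_of_one (m1 hα) (m4 hα') (m2 hε) (m3 hε') (m1 hβ) (m4 hβ') (m2 hε1)
    (m3 hε1') (m1 hβ1) (m4 hβ1') k1 k2 k3 k4

/-- **The stabilizers of paths of length seven.** An element of the group of the tame automorphisms
which fixes all vertices of a path of length seven has finite order. -/
theorem path_fix {u w : Vx (tA k) (tE k)} (p : (TT k).Walk u w) (hp : p.IsPath)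
    (hl : p.length = 7) (g : tame k) (hg : ∀ v ∈ p.support, g • v = v) :
    IsOfFinOrder (g : GA2 k) := by
  obtain ⟨ψ, hψ⟩ := path_data p hp hl
  obtain ⟨d, e, -, ⟨N, hN, h1⟩, -⟩ := hψ g hg
  rw [isOfFinOrder_iff_pow_eq_one]
  refine ⟨N, hN, ?_⟩
  have h2 : (g : GA2 k) = (ψ : GA2 k) * ((ψ⁻¹ * g * ψ : tame k) : GA2 k) * (ψ : GA2 k)⁻¹ := by
    push_cast
    group
  rw [h2, conj_pow, h1, mul_one, mul_inv_cancel]

/-- In characteristic zero the pointwise stabilizer of a path of length seven has at most `M`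
elements, if `M` is a multiple of the orders of all roots of unity. -/
theorem path_card [CharZero k] {M : ℕ} (hM : 0 < M)
    (hr : ∀ (z : k) (n : ℕ), 0 < n → z ^ n = 1 → z ^ M = 1) {u w : Vx (tA k) (tE k)}
    (p : (TT k).Walk u w) (hp : p.IsPath) (hl : p.length = 7) :
    {g : tame k | ∀ v ∈ p.support, g • v = v}.encard ≤ M := by
  classical
  obtain ⟨ψ, hψ⟩ := path_data p hp hl
  choose! d e h1 h2 h3 using hψ
  have hinj : Set.InjOn d {g : tame k | ∀ v ∈ p.support, g • v = v} := by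
    intro g hg g' hg' hd
    have hS : ∀ v ∈ p.support, (g⁻¹ * g') • v = v := by
      intro v hv
      rw [mul_smul, hg' v hv]
      exact inv_smul_eq_iff.2 (hg v hv).symm
    obtain ⟨κ, hκ⟩ : ∃ κ : GA2 k, κ = ((ψ⁻¹ * g * ψ : tame k) : GA2 k) := ⟨_, rfl⟩
    obtain ⟨κ', hκ'⟩ : ∃ κ : GA2 k, κ = ((ψ⁻¹ * g' * ψ : tame k) : GA2 k) := ⟨_, rfl⟩
    have e0 : ((ψ⁻¹ * (g⁻¹ * g') * ψ : tame k) : GA2 k) = κ⁻¹ * κ' := by
      rw [hκ, hκ']
      push_cast
      group
    have a1 := h1 g hg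
    have a2 := h1 g' hg'
    have a3 := h1 _ hS
    have a4 := h3 _ hS inferInstance
    rw [← hκ] at a1
    rw [← hκ', ← hd] at a2
    rw [e0] at a3 a4
    have hC : ∀ z : k, κ (C z) = C z := fun z => κ.commutes z
    have hC' : ∀ z : k, κ⁻¹ (C z) = C z := fun z => κ⁻¹.commutes z
    have hd0 : d g ≠ 0 := pres_ne (φ := 1) a1
    have b1 : κ (κ⁻¹ (X 1)) = X 1 := κ.apply_symm_apply _
    have b2 : (κ⁻¹ * κ') (X 1) = C (1 : k) * X 1 + C (e g' - e g) := by
      apply κ.injective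
      have b3 : κ ((κ⁻¹ * κ') (X 1)) = κ' (X 1) := κ.apply_symm_apply _
      rw [b3, a2, map_add, map_mul, hC, hC, a1, map_sub, map_one]
      ring
    have b3 : Pres (κ⁻¹ * κ') (X 1) (d (g⁻¹ * g')) (e (g⁻¹ * g')) := a3
    have b4 : d (g⁻¹ * g') = 1 := by
      have c1 := b2.symm.trans b3
      have c2 := congrArg (MvPolynomial.eval (fun _ : Fin 2 => (1 : k))) c1
      have c3 := congrArg (MvPolynomial.eval (fun _ : Fin 2 => (0 : k))) c1
      simp at c2 c3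
      rw [c3] at c2
      have c4 : 1 = d (g⁻¹ * g') := add_right_cancel c2
      exact c4.symm
    have b5 := a4 b4
    have b6 : κ = κ' := by
      rw [inv_mul_eq_one] at b5
      exact b5
    rw [hκ, hκ'] at b6
    have b7 : ψ⁻¹ * g * ψ = ψ⁻¹ * g' * ψ := Subtype.ext b6
    exact mul_left_cancel (mul_right_cancel b7)
  have hmap : d '' {g : tame k | ∀ v ∈ p.support, g • v = v} ⊆
      ((Polynomial.nthRoots M (1 : k)).toFinset : Set k) := by
    rintro _ ⟨g, hg, rfl⟩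
    rw [Finset.mem_coe, Multiset.mem_toFinset, Polynomial.mem_nthRoots hM]
    obtain ⟨N, hN, h4⟩ := h2 g hg
    refine hr _ N hN ?_
    have h5 := pow_lin (h1 g hg) N
    rw [h4] at h5
    have c2 := congrArg (MvPolynomial.eval (fun _ : Fin 2 => (1 : k))) h5
    have c3 := congrArg (MvPolynomial.eval (fun _ : Fin 2 => (0 : k))) h5
    simp only [AlgEquiv.one_apply, map_add, map_mul, eval_C, eval_X, mul_one, mul_zero,
      zero_add] at c2 c3
    rw [← c3, add_zero] at c2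
    exact c2.symm
  calc {g : tame k | ∀ v ∈ p.support, g • v = v}.encard
      = (d '' {g : tame k | ∀ v ∈ p.support, g • v = v}).encard := (hinj.encard_image).symm
    _ ≤ ((Polynomial.nthRoots M (1 : k)).toFinset : Set k).encard := Set.encard_le_encard hmap
    _ = ((Polynomial.nthRoots M (1 : k)).toFinset.card : ℕ∞) := Set.encard_coe_eq_coe_finsetCard _
    _ ≤ M := Nat.cast_le.2 ((Multiset.toFinset_card_le _).trans (Polynomial.card_nthRoots M 1))

end Pool.Agent.W5h2.PA
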