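import Pool.Agent.W5h2.PA.Sol

/-!
# Torsion-free groups of polynomial automorphisms of the plane
-/

set_option autoImplicit false

namespace Pool.Agent.W5h2.PA

open MvPolynomial

/-- The class `C` contains every torsion-free group which acts on a tree without inversions, with
vertex stabilizers in `C`, in such a way that for some `K` every nontrivial element moves a vertex of
each path of length `K` (an acylindrical action). -/
def AcylClosed (C : ∀ (G : Type) [Group G], Prop) : Prop :=
  ∀ (G V : Type) [Group G] [MulAction G V] (T : SimpleGraph V), T.IsTree →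
    (∀ (g : G) (u w : V), T.Adj u w → T.Adj (g • u) (g • w)) →
    (∀ (g : G) (u w : V), T.Adj u w → ¬ (g • u = w ∧ g • w = u)) →
    (∀ g : G, IsOfFinOrder g → g = 1) →
    (∃ K : ℕ, ∀ (u w : V) (p : T.Walk u w), p.IsPath → p.length = K →
      ∀ g : G, (∀ v ∈ p.support, g • v = v) → g = 1) →
    (∀ v : V, C (MulAction.stabilizer G v)) → C G

/-- The class `C` contains every group which acts on a tree without inversions, with vertex
stabilizers in `C`, such that for some `K` and `N` the pointwise stabilizer of each path of length `K`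
has at most `N` elements (an acylindrical action). -/
def AcylClosedFin (C : ∀ (G : Type) [Group G], Prop) : Prop :=
  ∀ (G V : Type) [Group G] [MulAction G V] (T : SimpleGraph V), T.IsTree →
    (∀ (g : G) (u w : V), T.Adj u w → T.Adj (g • u) (g • w)) →
    (∀ (g : G) (u w : V), T.Adj u w → ¬ (g • u = w ∧ g • w = u)) →
    (∃ K N : ℕ, ∀ (u w : V) (p : T.Walk u w), p.IsPath → p.length = K →
      {g : G | ∀ v ∈ p.support, g • v = v}.encard ≤ N) →
    (∀ v : V, C (MulAction.stabilizer G v)) → C G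

/-- `C` is closed under subgroups and isomorphisms. -/
def SubClosed (C : ∀ (G : Type) [Group G], Prop) : Prop :=
  ∀ (G H : Type) [Group G] [Group H] (f : G →* H), Function.Injective f → C H → C G

/-- The intersections of `G` with the conjugates of the affine group, by tame automorphisms, are
in `C`. -/
def AffineParts (C : ∀ (G : Type) [Group G], Prop) {k : Type} [Field k] (G : Subgroup (GA2 k)) :
    Prop :=
  ∀ φ ∈ tame k, C ↥(G ⊓ (affine k).map (MulAut.conj φ).toMonoidHom)

/-- `k` contains only finitely many roots of unity. -/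
def FewRoots (k : Type) [Field k] : Prop :=
  ∃ M : ℕ, 0 < M ∧ ∀ (z : k) (n : ℕ), 0 < n → z ^ n = 1 → z ^ M = 1

/-- `G` is torsion-free. -/
def TorsionFree {G : Type} [Group G] (H : Subgroup G) : Prop :=
  ∀ g ∈ H, IsOfFinOrder g → g = 1

variable {C : ∀ (G : Type) [Group G], Prop} {k : Type} [Field k]

theorem no_inv (g : tame k) (u w : Vx (tA k) (tE k)) (h : (TT k).Adj u w) :
    ¬ (g • u = w ∧ g • w = u) := by
  obtain ⟨x, ⟨rfl, rfl⟩ | ⟨rfl, rfl⟩⟩ := h
  · rintro ⟨h1, -⟩
    exact absurd h1 (by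
      show ¬ ((Sum.inl _ : Vx (tA k) (tE k)) = Sum.inr _)
      simp)
  · rintro ⟨h1, -⟩
    exact absurd h1 (by
      show ¬ ((Sum.inr _ : Vx (tA k) (tE k)) = Sum.inl _)
      simp)

/-- the stabilizers of the vertices are in `C` -/
theorem vert (hC : SubClosed C) (hS : ∀ (S : Type) [Group S], Group.IsSolvable S → C S)
    (G : Subgroup (tame k))
    (hv : ∀ φ : tame k, C ↥(G ⊓ (tA k).map (MulAut.conj φ).toMonoidHom)) :
    ∀ v : Vx (tA k) (tE k), C (MulAction.stabilizer G v) := by
  rintro (x | x)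
  · obtain ⟨ψ, rfl⟩ := QuotientGroup.mk_surjective x
    have h1 : ∀ g : MulAction.stabilizer G (Sum.inl (ψ : tame k ⧸ tA k) : Vx (tA k) (tE k)),
        ((g : G) : tame k) ∈ G ⊓ (tA k).map (MulAut.conj ψ).toMonoidHom := by
      intro g
      refine ⟨g.1.2, ?_⟩
      have h1 : ((((g : G) : tame k) * ψ : tame k) : tame k ⧸ tA k) = (ψ : tame k ⧸ tA k) :=
        Sum.inl.inj g.2
      rw [eq_comm, QuotientGroup.eq] at h1
      refine ⟨_, h1, ?_⟩
      show ψ * (ψ⁻¹ * (((g : G) : tame k) * ψ)) * ψ⁻¹ = ((g : G) : tame k)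
      group
    obtain ⟨f, hf⟩ : ∃ f : MulAction.stabilizer G
        (Sum.inl (ψ : tame k ⧸ tA k) : Vx (tA k) (tE k)) →*
          ↥(G ⊓ (tA k).map (MulAut.conj ψ).toMonoidHom),
        ∀ g, (f g : tame k) = ((g : G) : tame k) :=
      ⟨{ toFun := fun g => ⟨_, h1 g⟩
         map_one' := rfl
         map_mul' := fun a b => rfl }, fun g => rfl⟩
    refine hC _ _ f ?_ (hv ψ)
    intro a b hab
    have h2 := congrArg Subtype.val hab
    rw [hf, hf] at h2
    exact Subtype.ext (Subtype.ext h2)
  · obtain ⟨ψ, rfl⟩ := QuotientGroup.mk_surjective x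
    refine hS _ ?_
    have h0 : Group.IsSolvable (tE k) := by
      have h2 : Group.IsSolvable (triangular k) := sol_tri
      exact Group.isSolvable_of_isSolvable_injective (G' := triangular k)
        (f := (Subgroup.subgroupOfEquivOfLe (le_sup_right : triangular k ≤ tame k)).toMonoidHom)
        (MulEquiv.injective _)
    have h1 : ∀ g : MulAction.stabilizer G (Sum.inr (ψ : tame k ⧸ tE k) : Vx (tA k) (tE k)),
        ψ⁻¹ * ((g : G) : tame k) * ψ ∈ tE k := by
      intro g
      have h1 : ((((g : G) : tame k) * ψ : tame k) : tame k ⧸ tE k) = (ψ : tame k ⧸ tE k) :=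
        Sum.inr.inj g.2
      rw [eq_comm, QuotientGroup.eq, ← mul_assoc] at h1
      exact h1
    obtain ⟨f, hf⟩ : ∃ f : MulAction.stabilizer G
        (Sum.inr (ψ : tame k ⧸ tE k) : Vx (tA k) (tE k)) →* tE k,
        ∀ g, (f g : tame k) = ψ⁻¹ * ((g : G) : tame k) * ψ :=
      ⟨{ toFun := fun g => ⟨ψ⁻¹ * ((g : G) : tame k) * ψ, h1 g⟩
         map_one' := Subtype.ext (by simp)
         map_mul' := fun a b => Subtype.ext (by
          show ψ⁻¹ * (((a : G) : tame k) * ((b : G) : tame k)) * ψ =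
            ψ⁻¹ * ((a : G) : tame k) * ψ * (ψ⁻¹ * ((b : G) : tame k) * ψ)
          group) }, fun g => rfl⟩
    refine Group.isSolvable_of_isSolvable_injective (f := f) ?_
    intro a b hab
    have h2 := congrArg Subtype.val hab
    rw [hf, hf] at h2
    have h3 : ((a : G) : tame k) = ((b : G) : tame k) :=
      mul_left_cancel (mul_right_cancel h2)
    exact Subtype.ext (Subtype.ext h3)

theorem main_tame (hC : SubClosed C) (hA : AcylClosed C)
    (hS : ∀ (S : Type) [Group S], Group.IsSolvable S → C S) (G : Subgroup (tame k))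
    (htf : ∀ g ∈ G, IsOfFinOrder g → g = 1)
    (hv : ∀ φ : tame k, C ↥(G ⊓ (tA k).map (MulAut.conj φ).toMonoidHom)) : C G := by
  refine hA G (Vx (tA k) (tE k)) (TT k) TT_tree (fun g u w h => cg_smul (g : tame k) u w h)
    (fun g u w h => no_inv (g : tame k) u w h) ?_ ⟨7, fun u w p hp hl g hg => ?_⟩ (vert hC hS G hv)
  · intro g hg
    have h1 : IsOfFinOrder (g : tame k) := by
      rw [isOfFinOrder_iff_pow_eq_one] at hg ⊢
      obtain ⟨n, hn, h⟩ := hg
      exact ⟨n, hn, by exact_mod_cast congrArg Subtype.val h⟩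
    exact Subtype.ext (htf _ g.2 h1)
  · have h1 := path_fix p hp hl (g : tame k) hg
    have h2 : IsOfFinOrder (g : tame k) := by
      rw [isOfFinOrder_iff_pow_eq_one] at h1 ⊢
      obtain ⟨n, hn, h⟩ := h1
      exact ⟨n, hn, Subtype.ext (by exact_mod_cast h)⟩
    exact Subtype.ext (htf _ g.2 h2)

theorem main_tame_fin [CharZero k] (hC : SubClosed C) (hA : AcylClosedFin C)
    (hS : ∀ (S : Type) [Group S], Group.IsSolvable S → C S)
    (hr : ∃ M : ℕ, 0 < M ∧ ∀ (z : k) (n : ℕ), 0 < n → z ^ n = 1 → z ^ M = 1)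
    (G : Subgroup (tame k))
    (hv : ∀ φ : tame k, C ↥(G ⊓ (tA k).map (MulAut.conj φ).toMonoidHom)) : C G := by
  obtain ⟨M, hM, hr⟩ := hr
  refine hA G (Vx (tA k) (tE k)) (TT k) TT_tree (fun g u w h => cg_smul (g : tame k) u w h)
    (fun g u w h => no_inv (g : tame k) u w h) ⟨7, M, fun u w p hp hl => ?_⟩ (vert hC hS G hv)
  have h1 := path_card hM hr p hp hl
  refine le_trans ?_ h1
  rw [← (Subtype.val_injective (p := fun g => g ∈ G)).encard_image]
  refine Set.encard_le_encard ?_
  rintro _ ⟨g, hg, rfl⟩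
  exact hg

theorem transfer (hC : SubClosed C) (G : Subgroup (GA2 k)) (hG : G ≤ tame k)
    (hmain : (∀ φ : tame k, C ↥(G.subgroupOf (tame k) ⊓ (tA k).map (MulAut.conj φ).toMonoidHom)) →
      C ↥(G.subgroupOf (tame k))) :
    C G ↔ ∀ φ ∈ tame k, C ↥(G ⊓ (affine k).map (MulAut.conj φ).toMonoidHom) := by
  constructor
  · intro h φ _
    exact hC _ _ (Subgroup.inclusion inf_le_left) (Subgroup.inclusion_injective _) h
  · intro h
    have h1 : C ↥(G.subgroupOf (tame k)) := by
      refine hmain ?_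
      · intro φ
        obtain ⟨f, hf⟩ : ∃ f : ↥(G.subgroupOf (tame k) ⊓
            (tA k).map (MulAut.conj φ).toMonoidHom) →*
            ↥(G ⊓ (affine k).map (MulAut.conj (φ : GA2 k)).toMonoidHom),
            ∀ x, (f x : GA2 k) = ((x : tame k) : GA2 k) := by
          have h2 : ∀ x : ↥(G.subgroupOf (tame k) ⊓ (tA k).map (MulAut.conj φ).toMonoidHom),
              ((x : tame k) : GA2 k) ∈ G ⊓ (affine k).map (MulAut.conj (φ : GA2 k)).toMonoidHom := by
            rintro ⟨x, hx1, a, ha, rfl⟩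
            exact ⟨Subgroup.mem_subgroupOf.1 hx1, a, Subgroup.mem_subgroupOf.1 ha, rfl⟩
          exact ⟨{ toFun := fun x => ⟨_, h2 x⟩
                   map_one' := rfl
                   map_mul' := fun _ _ => rfl }, fun x => rfl⟩
        refine hC _ _ f ?_ (h φ φ.2)
        intro x y hxy
        have h3 := congrArg Subtype.val hxy
        rw [hf, hf] at h3
        exact Subtype.ext (Subtype.ext h3)
    exact hC _ _ (Subgroup.subgroupOfEquivOfLe hG).symm.toMonoidHom (MulEquiv.injective _) h1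

/-- **Torsion-free groups of tame automorphisms of the plane.** -/
theorem main_ga (hC : SubClosed C) (hA : AcylClosed C)
    (hS : ∀ (S : Type) [Group S], Group.IsSolvable S → C S) (G : Subgroup (GA2 k))
    (hG : G ≤ tame k) (htf : ∀ g ∈ G, IsOfFinOrder g → g = 1) :
    C G ↔ ∀ φ ∈ tame k, C ↥(G ⊓ (affine k).map (MulAut.conj φ).toMonoidHom) := by
  refine transfer hC G hG fun hv => main_tame hC hA hS _ ?_ hv
  intro g hg hf
  refine Subtype.ext (htf _ (Subgroup.mem_subgroupOf.1 hg) ?_)
  rw [isOfFinOrder_iff_pow_eq_one] at hf ⊢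
  obtain ⟨n, hn, h⟩ := hf
  exact ⟨n, hn, by exact_mod_cast congrArg Subtype.val h⟩

/-- **Groups of tame automorphisms of the plane over fields with finitely many roots of unity.** -/
theorem main_ga_fin [CharZero k] (hC : SubClosed C) (hA : AcylClosedFin C)
    (hS : ∀ (S : Type) [Group S], Group.IsSolvable S → C S)
    (hr : ∃ M : ℕ, 0 < M ∧ ∀ (z : k) (n : ℕ), 0 < n → z ^ n = 1 → z ^ M = 1)
    (G : Subgroup (GA2 k)) (hG : G ≤ tame k) :
    C G ↔ ∀ φ ∈ tame k, C ↥(G ⊓ (affine k).map (MulAut.conj φ).toMonoidHom) :=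
  transfer hC G hG fun hv => main_tame_fin hC hA hS hr _ hv

theorem aff_sub (hC : SubClosed C) (hk : C (affine k)) (G : Subgroup (GA2 k)) (φ : GA2 k) :
    C ↥(G ⊓ (affine k).map (MulAut.conj φ).toMonoidHom) := by
  have h1 : C ↥((affine k).map (MulAut.conj φ).toMonoidHom) :=
    hC _ _ ((affine k).equivMapOfInjective (MulAut.conj φ).toMonoidHom
      (MulEquiv.injective _)).symm.toMonoidHom (MulEquiv.injective _) hk
  exact hC _ _ (Subgroup.inclusion inf_le_right) (Subgroup.inclusion_injective _) h1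

open NumberField in
theorem nf_roots (k : Type) [Field k] [NumberField k] :
    ∃ M : ℕ, 0 < M ∧ ∀ (z : k) (n : ℕ), 0 < n → z ^ n = 1 → z ^ M = 1 := by
  refine ⟨Units.torsionOrder k, Units.torsionOrder_pos k, fun z n hn hz => ?_⟩
  have hint : IsIntegral ℤ z := IsIntegral.of_pow hn (by rw [hz]; exact isIntegral_one)
  obtain ⟨x, hx⟩ : ∃ x : 𝓞 k, algebraMap (𝓞 k) k x = z := ⟨⟨z, hint⟩, rfl⟩
  have hxn : x ^ n = 1 := by
    apply FaithfulSMul.algebraMap_injective (𝓞 k) k
    rw [map_pow, hx, hz, map_one]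
  obtain ⟨u, hu⟩ : ∃ u : (𝓞 k)ˣ, (u : 𝓞 k) = x := (IsUnit.of_pow_eq_one hxn (by omega))
  have hun : u ^ n = 1 := Units.ext (by rw [Units.val_pow_eq_pow_val, hu, hxn]; rfl)
  have hut : u ∈ Units.torsion k := by
    rw [Units.torsion, CommGroup.mem_torsion, isOfFinOrder_iff_pow_eq_one]
    exact ⟨n, hn, hun⟩
  have h1 : (⟨u, hut⟩ : Units.torsion k) ^ Units.torsionOrder k = 1 := by
    exact pow_card_eq_one'
  have h2 : u ^ Units.torsionOrder k = 1 := congrArg Subtype.val h1
  rw [← hx, ← hu, ← map_pow, ← Units.val_pow_eq_pow_val, h2, Units.val_one, map_one]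

/-- **Groups of tame automorphisms of the plane over number fields.** -/
theorem main_nf [NumberField k] (hC : SubClosed C) (hA : AcylClosedFin C)
    (hS : ∀ (S : Type) [Group S], Group.IsSolvable S → C S) (hk : C (affine k)) : C (tame k) := by
  rw [main_ga_fin hC hA hS (nf_roots k) (tame k) le_rfl]
  exact fun φ _ => aff_sub hC hk _ φ

end Pool.Agent.W5h2.PA
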