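import Pool.Agent.W5h2.PA.Tree

/-!
# Paths of length seven in the graph of the cosets
-/

set_option autoImplicit false

namespace Pool.Agent.W5h2.PA

variable {G : Type} [Group G] {A E : Subgroup G}

theorem step_l {v : Vx A E} {g : G} (h : (cg A E).Adj (Sum.inl (g : G ⧸ A)) v) :
    ∃ a ∈ A, v = Sum.inr ((g * a : G) : G ⧸ E) := by
  obtain ⟨x, ⟨h1, h2⟩ | ⟨h1, h2⟩⟩ := h
  · have e1 : (g : G ⧸ A) = (x : G ⧸ A) := Sum.inl.inj h1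
    rw [QuotientGroup.eq] at e1
    exact ⟨g⁻¹ * x, e1, by rw [mul_inv_cancel_left]; exact h2⟩
  · exact absurd h1 (by simp)

theorem step_r {v : Vx A E} {g : G} (h : (cg A E).Adj (Sum.inr (g : G ⧸ E)) v) :
    ∃ e ∈ E, v = Sum.inl ((g * e : G) : G ⧸ A) := by
  obtain ⟨x, ⟨h1, h2⟩ | ⟨h1, h2⟩⟩ := h
  · exact absurd h1 (by simp)
  · have e1 : (g : G ⧸ E) = (x : G ⧸ E) := Sum.inr.inj h1
    rw [QuotientGroup.eq] at e1
    exact ⟨g⁻¹ * x, e1, by rw [mul_inv_cancel_left]; exact h2⟩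

theorem ne_r {g a : G} (h : (Sum.inr (g : G ⧸ E) : Vx A E) ≠ Sum.inr ((g * a : G) : G ⧸ E)) :
    a ∉ E := by
  intro ha
  apply h
  congr 1
  rw [QuotientGroup.eq, inv_mul_cancel_left]
  exact ha

theorem ne_l {g a : G} (h : (Sum.inl (g : G ⧸ A) : Vx A E) ≠ Sum.inl ((g * a : G) : G ⧸ A)) :
    a ∉ A := by
  intro ha
  apply h
  congr 1
  rw [QuotientGroup.eq, inv_mul_cancel_left]
  exact ha

theorem eq_l {g a : G} (h : a ∈ A) : (Sum.inl (g : G ⧸ A) : Vx A E) = Sum.inl ((g * a : G) : G ⧸ A) := by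
  congr 1
  rw [QuotientGroup.eq, inv_mul_cancel_left]
  exact h

theorem eq_r {g a : G} (h : a ∈ E) : (Sum.inr (g : G ⧸ E) : Vx A E) = Sum.inr ((g * a : G) : G ⧸ E) := by
  congr 1
  rw [QuotientGroup.eq, inv_mul_cancel_left]
  exact h

/-- half of the path -/
theorem half {ψ : G} {x y : Vx A E} (h1 : (cg A E).Adj (Sum.inr (ψ : G ⧸ E)) x)
    (h2 : (cg A E).Adj x y) (n1 : x ≠ Sum.inl (ψ : G ⧸ A)) (n2 : y ≠ Sum.inr (ψ : G ⧸ E)) :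
    ∃ ε ∈ E, ε ∉ A ∧ ∃ β ∈ A, β ∉ E ∧ y = Sum.inr ((ψ * ε * β : G) : G ⧸ E) := by
  obtain ⟨ε, hε, rfl⟩ := step_r h1
  obtain ⟨β, hβ, rfl⟩ := step_l h2
  refine ⟨ε, hε, ne_l (E := E) n1.symm, β, hβ, ?_, rfl⟩
  refine ne_r (A := A) (g := ψ * ε) ?_
  rw [← eq_r hε]
  exact n2.symm

theorem six (w : ℕ → Vx A E) (h1 : ∀ i < 6, (cg A E).Adj (w i) (w (i + 1)))
    (h2 : ∀ i < 5, w i ≠ w (i + 2)) (x : G ⧸ A) (h3 : w 3 = Sum.inl x) :
    ∃ ψ : G, ∃ α ∈ A, α ∉ E ∧ w 2 = Sum.inr (ψ : G ⧸ E) ∧ w 4 = Sum.inr ((ψ * α : G) : G ⧸ E) ∧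
      (∃ ε ∈ E, ε ∉ A ∧ ∃ β ∈ A, β ∉ E ∧ w 0 = Sum.inr ((ψ * ε * β : G) : G ⧸ E)) ∧
      (∃ ε ∈ E, ε ∉ A ∧ ∃ β ∈ A, β ∉ E ∧ w 6 = Sum.inr ((ψ * α * ε * β : G) : G ⧸ E)) := by
  obtain ⟨g, rfl⟩ := QuotientGroup.mk_surjective x
  obtain ⟨a, ha, h4⟩ := step_l (h3 ▸ (h1 2 (by norm_num)).symm : (cg A E).Adj (Sum.inl (g : G ⧸ A)) (w 2))
  have h5 : w 3 = Sum.inl ((g * a : G) : G ⧸ A) := by rw [h3]; exact eq_l ha
  obtain ⟨α, hα, h6⟩ := step_l (h5 ▸ (h1 3 (by norm_num)) :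
    (cg A E).Adj (Sum.inl ((g * a : G) : G ⧸ A)) (w 4))
  have h7 : w 3 = Sum.inl ((g * a * α : G) : G ⧸ A) := by rw [h5]; exact eq_l hα
  refine ⟨g * a, α, hα, ?_, h4, h6, ?_, ?_⟩
  · refine ne_r (A := A) (g := g * a) ?_
    rw [← h4, ← h6]
    exact h2 2 (by norm_num)
  · refine half (x := w 1) (y := w 0) ?_ (h1 0 (by norm_num)).symm ?_ ?_
    · rw [← h4]
      exact (h1 1 (by norm_num)).symm
    · rw [← h5]
      exact h2 1 (by norm_num)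
    · rw [← h4]
      exact h2 0 (by norm_num)
  · refine half (x := w 5) (y := w 6) ?_ (h1 5 (by norm_num)) ?_ ?_
    · rw [← h6]
      exact h1 4 (by norm_num)
    · rw [← h7]
      exact (h2 3 (by norm_num)).symm
    · rw [← h6]
      exact (h2 4 (by norm_num)).symm

theorem seven {u w : Vx A E} (p : (cg A E).Walk u w) (hp : p.IsPath) (hl : p.length = 7) :
    ∃ ψ : G, ∃ α ∈ A, α ∉ E ∧ Sum.inr (ψ : G ⧸ E) ∈ p.support ∧
      Sum.inr ((ψ * α : G) : G ⧸ E) ∈ p.support ∧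
      (∃ ε ∈ E, ε ∉ A ∧ ∃ β ∈ A, β ∉ E ∧ Sum.inr ((ψ * ε * β : G) : G ⧸ E) ∈ p.support) ∧
      (∃ ε ∈ E, ε ∉ A ∧ ∃ β ∈ A, β ∉ E ∧ Sum.inr ((ψ * α * ε * β : G) : G ⧸ E) ∈ p.support) := by
  have hadj : ∀ i < 7, (cg A E).Adj (p.getVert i) (p.getVert (i + 1)) := fun i hi =>
    p.adj_getVert_succ (by omega)
  have hne : ∀ i < 6, p.getVert i ≠ p.getVert (i + 2) := by
    intro i hi h
    have := hp.getVert_injOn (by show i ≤ p.length; omega) (by show i + 2 ≤ p.length; omega) h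
    omega
  obtain ⟨c, hc, x, hx⟩ : ∃ c ≤ 1, ∃ x : G ⧸ A, p.getVert (3 + c) = Sum.inl x := by
    rcases h : p.getVert 3 with x | x
    · exact ⟨0, by omega, x, h⟩
    · refine ⟨1, le_rfl, ?_⟩
      have h1 := hadj 3 (by omega)
      rw [h] at h1
      obtain ⟨g, ⟨h2, _⟩ | ⟨_, h2⟩⟩ := h1
      · exact absurd h2 (by simp)
      · exact ⟨_, h2⟩
  obtain ⟨ψ, α, hα, hα', h2, h4, ⟨ε, hε, hε', β, hβ, hβ', h0⟩, ⟨ε1, hε1, hε1', β1, hβ1, hβ1', h6⟩⟩ :=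
    six (fun i => p.getVert (i + c))
      (fun i hi => by
        have := hadj (i + c) (by omega)
        have e : i + c + 1 = i + 1 + c := by omega
        rw [e] at this
        exact this)
      (fun i hi => by
        have := hne (i + c) (by omega)
        have e : i + c + 2 = i + 2 + c := by omega
        rw [e] at this
        exact this) x hx
  refine ⟨ψ, α, hα, hα', ?_, ?_, ⟨ε, hε, hε', β, hβ, hβ', ?_⟩, ⟨ε1, hε1, hε1', β1, hβ1, hβ1', ?_⟩⟩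
  · rw [← h2]; exact p.getVert_mem_support _
  · rw [← h4]; exact p.getVert_mem_support _
  · rw [← h0]; exact p.getVert_mem_support _
  · rw [← h6]; exact p.getVert_mem_support _

end Pool.Agent.W5h2.PA
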