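import Pool.Agent.W5h2.PA.Path

/-!
# The group of the automorphisms of the polynomial ring in two variables
-/

set_option autoImplicit false

namespace Pool.Agent.W5h2.PA

open MvPolynomial

variable {k : Type} [Field k]

variable (k) in
/-- The ring `k[x, y]`, with `x = X 0` and `y = X 1`. -/
abbrev R2 : Type := MvPolynomial (Fin 2) k

variable (k) in
/-- The group of the automorphisms of the `k`-algebra `k[x, y]`. -/
abbrev GA2 : Type := R2 k ≃ₐ[k] R2 k

/-- `p` is a polynomial of degree at most one. -/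
def IsAff (p : R2 k) : Prop := ∃ a b c : k, p = C a * X 0 + C b * X 1 + C c

theorem IsAff.comb {p q : R2 k} (hp : IsAff p) (hq : IsAff q) (a b c : k) :
    IsAff (C a * p + C b * q + C c) := by
  obtain ⟨p1, p2, p3, rfl⟩ := hp
  obtain ⟨q1, q2, q3, rfl⟩ := hq
  refine ⟨a * p1 + b * q1, a * p2 + b * q2, a * p3 + b * q3 + c, ?_⟩
  simp only [map_add, map_mul]
  ring

theorem map_lin (φ : GA2 k) (a b c : k) :
    φ (C a * X 0 + C b * X 1 + C c) = C a * φ (X 0) + C b * φ (X 1) + C c := by
  have h : ∀ z : k, φ (C z) = C z := fun z => φ.commutes z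
  simp only [map_add, map_mul, h]

variable (k) in
/-- The group of the affine automorphisms: `φ` and its inverse are given by polynomials of degree at
most one. -/
noncomputable def affine : Subgroup (GA2 k) where
  carrier := {φ | ∀ i, IsAff (φ (X i)) ∧ IsAff (φ⁻¹ (X i))}
  one_mem' := by
    intro i
    have h : IsAff (X i : R2 k) := by
      fin_cases i
      · exact ⟨1, 0, 0, by simp⟩
      · exact ⟨0, 1, 0, by simp⟩
    exact ⟨h, h⟩
  mul_mem' := by
    intro φ ψ hφ hψ i
    constructor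
    · show IsAff (φ (ψ (X i)))
      obtain ⟨a, b, c, h⟩ := (hψ i).1
      rw [h, map_lin]
      exact (hφ 0).1.comb (hφ 1).1 a b c
    · rw [mul_inv_rev]
      show IsAff (ψ⁻¹ (φ⁻¹ (X i)))
      obtain ⟨a, b, c, h⟩ := (hφ i).2
      rw [h, map_lin]
      exact (hψ 0).2.comb (hψ 1).2 a b c
  inv_mem' := by
    intro φ hφ i
    refine ⟨(hφ i).2, ?_⟩
    rw [inv_inv]
    exact (hφ i).1

/-- `φ x = a x + p(y)`, `φ y = b y + c` -/
def IsTri (φ : GA2 k) (a b c : k) (p : Polynomial k) : Prop :=
  φ (X 0) = C a * X 0 + Polynomial.aeval (X 1 : R2 k) p ∧ φ (X 1) = C b * X 1 + C c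

theorem map_aeval (φ : GA2 k) (q : R2 k) (p : Polynomial k) :
    φ (Polynomial.aeval q p) = Polynomial.aeval (φ q) p := by
  exact (Polynomial.aeval_algHom_apply (φ : R2 k →ₐ[k] R2 k) q p).symm

theorem IsTri.mul {φ ψ : GA2 k} {a b c a' b' c' : k} {p p' : Polynomial k} (h : IsTri φ a b c p)
    (h' : IsTri ψ a' b' c' p') : IsTri (φ * ψ) (a' * a) (b' * b) (b' * c + c')
      (Polynomial.C a' * p + p'.comp (Polynomial.C b * Polynomial.X + Polynomial.C c)) := by
  have hC : ∀ z : k, φ (C z) = C z := fun z => φ.commutes z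
  constructor
  · show φ (ψ (X 0)) = _
    rw [h'.1, map_add, map_mul, hC, h.1, map_aeval, h.2, map_add, Polynomial.aeval_comp]
    simp only [map_add, map_mul, Polynomial.aeval_C, Polynomial.aeval_X, MvPolynomial.algebraMap_eq]
    ring
  · show φ (ψ (X 1)) = _
    rw [h'.2, map_add, map_mul, hC, hC, h.2]
    simp only [map_add, map_mul]
    ring

theorem IsTri.inv {φ : GA2 k} {a b c : k} {p : Polynomial k} (h : IsTri φ a b c p) (ha : a ≠ 0)
    (hb : b ≠ 0) : IsTri φ⁻¹ a⁻¹ b⁻¹ (-(b⁻¹ * c)) (Polynomial.C (-a⁻¹) *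
      p.comp (Polynomial.C b⁻¹ * Polynomial.X + Polynomial.C (-(b⁻¹ * c)))) := by
  have hC : ∀ z : k, φ (C z) = C z := fun z => φ.commutes z
  have hi : ∀ u v : R2 k, φ u = v → φ⁻¹ v = u := by
    rintro u _ rfl
    exact φ.symm_apply_apply u
  constructor
  · refine hi _ _ ?_
    rw [map_add, map_mul, hC, h.1, map_aeval, h.2]
    simp only [map_mul, Polynomial.aeval_comp, map_add, Polynomial.aeval_C, Polynomial.aeval_X,
      MvPolynomial.algebraMap_eq]
    have e : (C b⁻¹ * (C b * X 1 + C c) + C (-(b⁻¹ * c)) : R2 k) = X 1 := by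
      have e1 : (C b⁻¹ * C b : R2 k) = 1 := by rw [← map_mul, inv_mul_cancel₀ hb, map_one]
      rw [map_neg, map_mul, mul_add, ← mul_assoc, e1]
      ring
    rw [e]
    have e1 : (C a⁻¹ * C a : R2 k) = 1 := by rw [← map_mul, inv_mul_cancel₀ ha, map_one]
    rw [map_neg, mul_add, ← mul_assoc, e1]
    ring
  · refine hi _ _ ?_
    rw [map_add, map_mul, hC, hC, h.2]
    have e1 : (C b⁻¹ * C b : R2 k) = 1 := by rw [← map_mul, inv_mul_cancel₀ hb, map_one]
    rw [map_neg, map_mul, mul_add, ← mul_assoc, e1]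
    ring

variable (k) in
/-- The group of the triangular automorphisms: `φ x = a x + p(y)`, `φ y = b y + c` with `a, b ≠ 0`. -/
noncomputable def triangular : Subgroup (GA2 k) where
  carrier := {φ | ∃ (a b c : k) (p : Polynomial k), a ≠ 0 ∧ b ≠ 0 ∧ IsTri φ a b c p}
  one_mem' := ⟨1, 1, 0, 0, one_ne_zero, one_ne_zero, by
    constructor
    · simp
    · simp⟩
  mul_mem' := by
    rintro φ ψ ⟨a, b, c, p, ha, hb, h⟩ ⟨a', b', c', p', ha', hb', h'⟩
    exact ⟨_, _, _, _, mul_ne_zero ha' ha, mul_ne_zero hb' hb, h.mul h'⟩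
  inv_mem' := by
    rintro φ ⟨a, b, c, p, ha, hb, h⟩
    exact ⟨_, _, _, _, inv_ne_zero ha, inv_ne_zero hb, h.inv ha hb⟩

variable (k) in
/-- The group of the tame automorphisms. -/
noncomputable def tame : Subgroup (GA2 k) := affine k ⊔ triangular k

/-! ### Degrees -/

theorem deg_comb_le (p q : R2 k) (a b c : k) :
    (C a * p + C b * q + C c).totalDegree ≤ max p.totalDegree q.totalDegree := by
  have h1 : (C a * p).totalDegree ≤ p.totalDegree := by
    refine (totalDegree_mul _ _).trans ?_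
    rw [totalDegree_C, zero_add]
  have h2 : (C b * q).totalDegree ≤ q.totalDegree := by
    refine (totalDegree_mul _ _).trans ?_
    rw [totalDegree_C, zero_add]
  refine (totalDegree_add _ _).trans (max_le ((totalDegree_add _ _).trans (max_le_max h1 h2)) ?_)
  rw [totalDegree_C]
  exact Nat.zero_le _

theorem deg_aeval_le (q : R2 k) (p : Polynomial k) :
    (Polynomial.aeval q p).totalDegree ≤ p.natDegree * q.totalDegree := by
  rw [Polynomial.aeval_eq_sum_range]
  refine totalDegree_finsetSum_le fun i hi => ?_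
  refine (totalDegree_smul_le _ _).trans ((totalDegree_pow _ _).trans ?_)
  exact Nat.mul_le_mul_right _ (Nat.lt_succ_iff.1 (Finset.mem_range.1 hi))

theorem deg_pow (q : R2 k) (n : ℕ) (hq : q ≠ 0) : (q ^ n).totalDegree = n * q.totalDegree := by
  induction n with
  | zero => simp
  | succ n ih =>
    rw [pow_succ, totalDegree_mul_of_isDomain (pow_ne_zero n hq) hq, ih]
    ring

theorem deg_aeval (q : R2 k) (p : Polynomial k) (hq : 1 ≤ q.totalDegree) (hp : 1 ≤ p.natDegree) :
    (Polynomial.aeval q p).totalDegree = p.natDegree * q.totalDegree := by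
  have hq0 : q ≠ 0 := by
    rintro rfl
    simp at hq
  have hp0 : p ≠ 0 := by
    rintro rfl
    simp at hp
  have hl : p.leadingCoeff ≠ 0 := Polynomial.leadingCoeff_ne_zero.2 hp0
  have e : Polynomial.aeval q p = C p.leadingCoeff * q ^ p.natDegree +
      Polynomial.aeval q p.eraseLead := by
    conv_lhs => rw [← Polynomial.eraseLead_add_C_mul_X_pow p]
    rw [map_add, map_mul, map_pow, Polynomial.aeval_C, Polynomial.aeval_X,
      MvPolynomial.algebraMap_eq]
    ring
  have h1 : (C p.leadingCoeff * q ^ p.natDegree).totalDegree = p.natDegree * q.totalDegree := by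
    rw [totalDegree_mul_of_isDomain (by simpa using hl) (pow_ne_zero _ hq0), totalDegree_C, zero_add,
      deg_pow q _ hq0]
  have h2 : (Polynomial.aeval q p.eraseLead).totalDegree < p.natDegree * q.totalDegree := by
    refine lt_of_le_of_lt (deg_aeval_le q _) ?_
    have h3 := Polynomial.eraseLead_natDegree_le p
    have h4 : p.eraseLead.natDegree < p.natDegree := by omega
    exact Nat.mul_lt_mul_of_pos_right h4 hq
  rw [e, totalDegree_add_eq_left_of_totalDegree_lt (by rw [h1]; exact h2), h1]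

/-- the degrees -/
noncomputable def dr (φ : GA2 k) : ℕ := max (φ (X 0)).totalDegree (φ (X 1)).totalDegree

/-- the degree of the second component -/
noncomputable def ds (φ : GA2 k) : ℕ := (φ (X 1)).totalDegree

theorem dr_mul_le (φ : GA2 k) {α : GA2 k} (hα : α ∈ affine k) : dr (φ * α) ≤ dr φ := by
  have h : ∀ i, ((φ * α) (X i)).totalDegree ≤ dr φ := by
    intro i
    show (φ (α (X i))).totalDegree ≤ _
    obtain ⟨a, b, c, h⟩ := (hα i).1
    rw [h, map_lin]
    exact deg_comb_le _ _ a b c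
  exact max_le (h 0) (h 1)

theorem dr_mul (φ : GA2 k) {α : GA2 k} (hα : α ∈ affine k) : dr (φ * α) = dr φ := by
  refine le_antisymm (dr_mul_le φ hα) ?_
  have := dr_mul_le (φ * α) (inv_mem hα)
  rwa [mul_inv_cancel_right] at this

theorem ds_mul_le (φ : GA2 k) {ε : GA2 k} (hε : ε ∈ triangular k) : ds (φ * ε) ≤ ds φ := by
  obtain ⟨a, b, c, p, ha, hb, h⟩ := hε
  have hC : ∀ z : k, φ (C z) = C z := fun z => φ.commutes z
  show (φ (ε (X 1))).totalDegree ≤ _
  rw [h.2, map_add, map_mul, hC, hC]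
  have := deg_comb_le (φ (X 1)) (φ (X 1)) b 0 c
  rw [max_self, map_zero, zero_mul, add_zero] at this
  exact this

theorem ds_mul (φ : GA2 k) {ε : GA2 k} (hε : ε ∈ triangular k) : ds (φ * ε) = ds φ := by
  refine le_antisymm (ds_mul_le φ hε) ?_
  have := ds_mul_le (φ * ε) (inv_mem hε)
  rwa [mul_inv_cancel_right] at this

theorem deg_pos (φ : GA2 k) (i : Fin 2) : 1 ≤ (φ (X i)).totalDegree := by
  rw [Nat.one_le_iff_ne_zero]
  intro h
  rw [totalDegree_eq_zero_iff_eq_C] at h
  obtain ⟨c, hc⟩ : ∃ c, φ (X i) = C c := ⟨_, h⟩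
  have h1 : φ (X i) = φ (C c) := by rw [hc]; exact (φ.commutes c).symm
  have h2 : (X i : R2 k) = C c := φ.injective h1
  have h3 := congrArg totalDegree h2
  rw [totalDegree_X, totalDegree_C] at h3
  exact one_ne_zero h3

/-- an affine automorphism which maps `y` to a polynomial in `y` is triangular -/
theorem tri_of_aff {α : GA2 k} (hα : α ∈ affine k) {v w : k} (h : α (X 1) = C v * X 1 + C w) :
    α ∈ triangular k := by
  obtain ⟨a, b, c, h0⟩ := (hα 0).1
  have hC : ∀ z : k, α (C z) = C z := fun z => α.commutes z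
  have hv : v ≠ 0 := by
    rintro rfl
    have := deg_pos α 1
    rw [h, map_zero, zero_mul, zero_add, totalDegree_C] at this
    omega
  have ha : a ≠ 0 := by
    rintro rfl
    have e : α (X 0) = α (C (b * v⁻¹) * X 1 + C (c - b * v⁻¹ * w)) := by
      rw [map_add, map_mul, hC, hC, h, h0]
      have e1 : (C (b * v⁻¹) * C v : R2 k) = C b := by
        rw [← map_mul, mul_assoc, inv_mul_cancel₀ hv, mul_one]
      rw [mul_add, ← mul_assoc, e1, map_sub, map_mul C (b * v⁻¹) w, map_zero]
      ring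
    have e2 := α.injective e
    have e3 := congrArg (MvPolynomial.eval (fun i : Fin 2 => if i = 0 then (1 : k) else 0)) e2
    have e4 := congrArg (MvPolynomial.eval (fun i : Fin 2 => (0 : k))) e2
    simp at e3 e4
    rw [← e4] at e3
    exact one_ne_zero e3
  refine ⟨a, v, w, Polynomial.C b * Polynomial.X + Polynomial.C c, ha, hv, ?_, h⟩
  rw [h0]
  simp only [map_add, map_mul, Polynomial.aeval_C, Polynomial.aeval_X, MvPolynomial.algebraMap_eq]
  ring

/-- a triangular automorphism of degree one is affine -/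
theorem aff_of_tri {ε : GA2 k} {a b c : k} {p : Polynomial k} (ha : a ≠ 0) (hb : b ≠ 0)
    (h : IsTri ε a b c p) (hp : p.natDegree ≤ 1) : ε ∈ affine k := by
  have key : ∀ (ε : GA2 k) (a b c : k) (p : Polynomial k), IsTri ε a b c p → p.natDegree ≤ 1 →
      ∀ i, IsAff (ε (X i)) := by
    intro ε a b c p h hp i
    fin_cases i
    · refine ⟨a, p.coeff 1, p.coeff 0, ?_⟩
      show ε (X 0) = _
      rw [h.1]
      conv_lhs => rw [Polynomial.eq_X_add_C_of_natDegree_le_one hp]
      simp only [map_add, map_mul, Polynomial.aeval_C, Polynomial.aeval_X,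
        MvPolynomial.algebraMap_eq]
      ring
    · refine ⟨0, b, c, ?_⟩
      show ε (X 1) = _
      rw [h.2, map_zero, zero_mul, zero_add]
  intro i
  refine ⟨key ε a b c p h hp i, ?_⟩
  refine key ε⁻¹ _ _ _ _ (h.inv ha hb) ?_ i
  refine (Polynomial.natDegree_C_mul_le _ _).trans ?_
  refine Polynomial.natDegree_comp_le.trans ?_
  have h1 : (Polynomial.C b⁻¹ * Polynomial.X + Polynomial.C (-(b⁻¹ * c))).natDegree ≤ 1 :=
    Polynomial.natDegree_linear_le
  calc p.natDegree * _ ≤ 1 * 1 := Nat.mul_le_mul hp h1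
    _ = 1 := rfl

theorem tri_of_deg (φ : GA2 k) {α : GA2 k} (hα : α ∈ affine k) (h1 : ds φ < dr φ)
    (h2 : ds (φ * α) < dr φ) : α ∈ triangular k := by
  obtain ⟨u, v, w, h⟩ := (hα 1).1
  rcases eq_or_ne u 0 with rfl | hu
  · refine tri_of_aff hα (v := v) (w := w) ?_
    rw [h, map_zero, zero_mul, zero_add]
  · exfalso
    have e : φ (X 0) = C u⁻¹ * (φ * α) (X 1) + C (-(u⁻¹ * v)) * φ (X 1) + C (-(u⁻¹ * w)) := by
      have e1 : (φ * α) (X 1) = C u * φ (X 0) + C v * φ (X 1) + C w := by
        show φ (α (X 1)) = _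
        rw [h, map_lin]
      rw [e1, map_neg, map_neg, map_mul, map_mul]
      have e2 : (C u⁻¹ * C u : R2 k) = 1 := by rw [← map_mul, inv_mul_cancel₀ hu, map_one]
      rw [mul_add, mul_add, ← mul_assoc, e2]
      ring
    have h3 := deg_comb_le ((φ * α) (X 1)) (φ (X 1)) u⁻¹ (-(u⁻¹ * v)) (-(u⁻¹ * w))
    rw [← e] at h3
    have h4 : (φ (X 0)).totalDegree < dr φ := lt_of_le_of_lt h3 (max_lt h2 h1)
    have h5 : dr φ < dr φ := max_lt h4 h1
    exact lt_irrefl _ h5

theorem aff_of_deg (φ : GA2 k) {ε : GA2 k} (hε : ε ∈ triangular k) (h1 : dr φ ≤ ds φ)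
    (h2 : dr (φ * ε) ≤ ds φ) : ε ∈ affine k := by
  obtain ⟨a, b, c, p, ha, hb, h⟩ := hε
  refine aff_of_tri ha hb h ?_
  by_contra hp
  push Not at hp
  have hC : ∀ z : k, φ (C z) = C z := fun z => φ.commutes z
  have e1 : (φ * ε) (X 0) = C a * φ (X 0) + Polynomial.aeval (φ (X 1)) p := by
    show φ (ε (X 0)) = _
    rw [h.1, map_add, map_mul, hC, map_aeval]
  have e2 : Polynomial.aeval (φ (X 1)) p = C 1 * (φ * ε) (X 0) + C (-a) * φ (X 0) + C 0 := by
    rw [e1, map_one, map_neg, map_zero]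
    ring
  have h3 := deg_aeval (φ (X 1)) p (deg_pos φ 1) (by omega)
  have h4 := deg_comb_le ((φ * ε) (X 0)) (φ (X 0)) 1 (-a) 0
  rw [← e2, h3] at h4
  have h5 : max ((φ * ε) (X 0)).totalDegree (φ (X 0)).totalDegree ≤ ds φ :=
    max_le ((le_max_left _ _).trans h2) ((le_max_left _ _).trans h1)
  have h6 : p.natDegree * (φ (X 1)).totalDegree ≤ (φ (X 1)).totalDegree := h4.trans h5
  have h7 := deg_pos φ 1
  nlinarith

/-! ### The tree -/

variable (k) in
/-- The affine automorphisms in the group of the tame automorphisms -/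
noncomputable def tA : Subgroup (tame k) := (affine k).subgroupOf (tame k)

variable (k) in
/-- The triangular automorphisms in the group of the tame automorphisms -/
noncomputable def tE : Subgroup (tame k) := (triangular k).subgroupOf (tame k)

variable (k) in
/-- The tree of the group of the tame automorphisms. -/
noncomputable def TT : SimpleGraph (Vx (tA k) (tE k)) := cg (tA k) (tE k)

theorem TT_tree : (TT k).IsTree := by
  refine cg_tree ?_ (fun g => dr (g : GA2 k)) (fun g => ds (g : GA2 k)) ?_ ?_ ?_ ?_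
  · unfold tA tE tame
    rw [← Subgroup.subgroupOf_sup le_sup_left le_sup_right, Subgroup.subgroupOf_self]
  · intro g a ha
    exact dr_mul _ (Subgroup.mem_subgroupOf.1 ha)
  · intro g e he
    exact ds_mul _ (Subgroup.mem_subgroupOf.1 he)
  · intro g a ha h1 h2
    exact Subgroup.mem_subgroupOf.2 (tri_of_deg _ (Subgroup.mem_subgroupOf.1 ha) h1 h2)
  · intro g e he h1 h2
    exact Subgroup.mem_subgroupOf.2 (aff_of_deg _ (Subgroup.mem_subgroupOf.1 he) h1 h2)

end Pool.Agent.W5h2.PA
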