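import Pool.Agent.W5h2.PA.Fix2

/-!
# The group of the triangular automorphisms is solvable
-/

set_option autoImplicit false

namespace Pool.Agent.W5h2.PA

open MvPolynomial

variable {k : Type} [Field k]

/-- the value of `φ (X i)` at the point `(x, y)` -/
noncomputable def vl (φ : GA2 k) (i : Fin 2) (x y : k) : k :=
  MvPolynomial.eval (fun j : Fin 2 => if j = 0 then x else y) (φ (X i))

theorem eval_aeval (v : Fin 2 → k) (p : Polynomial k) :
    MvPolynomial.eval v (Polynomial.aeval (X 1 : R2 k) p) = p.eval (v 1) := by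
  have h := Polynomial.aeval_algHom_apply (MvPolynomial.aeval (R := k) v) (X 1) p
  rw [aeval_X] at h
  exact h.symm

theorem vl0 {φ : GA2 k} {a b c : k} {p : Polynomial k} (h : IsTri φ a b c p) (x y : k) :
    vl φ 0 x y = a * x + p.eval y := by
  unfold vl
  rw [h.1, map_add, map_mul, eval_C, eval_X, if_pos rfl, eval_aeval, if_neg one_ne_zero]

theorem vl1 {φ : GA2 k} {a b c : k} {p : Polynomial k} (h : IsTri φ a b c p) (x y : k) :
    vl φ 1 x y = b * y + c := by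
  unfold vl
  rw [h.2, map_add, map_mul, eval_C, eval_C, eval_X, if_neg one_ne_zero]

theorem tri_val {φ : GA2 k} {a b c : k} {p : Polynomial k} (h : IsTri φ a b c p) :
    vl φ 0 1 0 - vl φ 0 0 0 = a ∧ vl φ 1 0 1 - vl φ 1 0 0 = b ∧ vl φ 1 0 0 = c := by
  refine ⟨?_, ?_, ?_⟩
  · rw [vl0 h, vl0 h]; ring
  · rw [vl1 h, vl1 h]; ring
  · rw [vl1 h]; ring

variable (k) in
/-- the two diagonal coefficients -/
noncomputable def f0 : triangular k →* k × k where
  toFun := fun φ => (vl φ.1 0 1 0 - vl φ.1 0 0 0, vl φ.1 1 0 1 - vl φ.1 1 0 0)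
  map_one' := by
    have h : IsTri (1 : GA2 k) 1 1 0 0 := ⟨by simp, by simp⟩
    obtain ⟨h1, h2, -⟩ := tri_val h
    exact Prod.ext h1 h2
  map_mul' := by
    rintro ⟨φ, a, b, c, p, -, -, h⟩ ⟨ψ, a', b', c', p', -, -, h'⟩
    obtain ⟨h1, h2, -⟩ := tri_val h
    obtain ⟨h1', h2', -⟩ := tri_val h'
    obtain ⟨g1, g2, -⟩ := tri_val (h.mul h')
    refine Prod.ext ?_ ?_
    · show vl (φ * ψ) 0 1 0 - vl (φ * ψ) 0 0 0 = _
      rw [g1]
      show _ = (vl φ 0 1 0 - vl φ 0 0 0) * (vl ψ 0 1 0 - vl ψ 0 0 0)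
      rw [h1, h1', mul_comm]
    · show vl (φ * ψ) 1 0 1 - vl (φ * ψ) 1 0 0 = _
      rw [g2]
      show _ = (vl φ 1 0 1 - vl φ 1 0 0) * (vl ψ 1 0 1 - vl ψ 1 0 0)
      rw [h2, h2', mul_comm]

variable (k) in
/-- the unipotent triangular automorphisms -/
noncomputable def K0 : Subgroup (triangular k) := (f0 k).toHomUnits.ker

theorem K0_tri {φ : triangular k} (h : φ ∈ K0 k) : ∃ (c : k) (p : Polynomial k),
    IsTri φ.1 1 1 c p := by
  obtain ⟨φ, a, b, c, p, ha, hb, h1⟩ := φ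
  have h2 : f0 k ⟨φ, a, b, c, p, ha, hb, h1⟩ = 1 := congrArg Units.val h
  obtain ⟨e1, e2, -⟩ := tri_val h1
  have e3 : vl φ 0 1 0 - vl φ 0 0 0 = 1 := congrArg Prod.fst h2
  have e4 : vl φ 1 0 1 - vl φ 1 0 0 = 1 := congrArg Prod.snd h2
  have ha1 : a = 1 := by rw [← e1, e3]
  have hb1 : b = 1 := by rw [← e2, e4]
  subst ha1
  subst hb1
  exact ⟨c, p, h1⟩

variable (k) in
/-- the translation part -/
noncomputable def g0 : K0 k →* Multiplicative k where
  toFun := fun φ => Multiplicative.ofAdd (vl φ.1.1 1 0 0)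
  map_one' := by
    have h : IsTri (1 : GA2 k) 1 1 0 0 := ⟨by simp, by simp⟩
    obtain ⟨-, -, h3⟩ := tri_val h
    exact congrArg Multiplicative.ofAdd h3
  map_mul' := by
    intro φ ψ
    obtain ⟨c, p, h⟩ := K0_tri φ.2
    obtain ⟨c', p', h'⟩ := K0_tri ψ.2
    obtain ⟨-, -, h3⟩ := tri_val h
    obtain ⟨-, -, h3'⟩ := tri_val h'
    obtain ⟨-, -, g3⟩ := tri_val (h.mul h')
    have e : vl (φ.1.1 * ψ.1.1) 1 0 0 = vl φ.1.1 1 0 0 + vl ψ.1.1 1 0 0 := by
      rw [g3, h3, h3', one_mul]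
    exact congrArg Multiplicative.ofAdd e

theorem comm0 {φ ψ : GA2 k} {p q : Polynomial k} (h : IsTri φ 1 1 0 p) (h' : IsTri ψ 1 1 0 q) :
    φ * ψ = ψ * φ := by
  have e1 := h.mul h'
  have e2 := h'.mul h
  apply AlgEquiv.ext
  intro r
  have h8 : ((φ * ψ : GA2 k) : R2 k →ₐ[k] R2 k) = ((ψ * φ : GA2 k) : R2 k →ₐ[k] R2 k) := by
    apply MvPolynomial.algHom_ext
    intro i
    fin_cases i
    · show (φ * ψ) (X 0) = (ψ * φ) (X 0)
      rw [e1.1, e2.1]
      simp [add_comm]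
    · show (φ * ψ) (X 1) = (ψ * φ) (X 1)
      rw [e1.2, e2.2]
  exact congrArg (fun f : R2 k →ₐ[k] R2 k => f r) h8

theorem sol_K0 : Group.IsSolvable (K0 k) := by
  have h1 : Group.IsSolvable (g0 k).ker := by
    refine Group.isSolvable_of_comm fun φ ψ => ?_
    obtain ⟨c, p, h⟩ := K0_tri φ.1.2
    obtain ⟨c', p', h'⟩ := K0_tri ψ.1.2
    have hc : c = 0 := by
      have h3 : g0 k φ.1 = 1 := φ.2
      have h4 : vl φ.1.1.1 1 0 0 = 0 := Multiplicative.ofAdd.injective h3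
      rw [← (tri_val h).2.2, h4]
    have hc' : c' = 0 := by
      have h3 : g0 k ψ.1 = 1 := ψ.2
      have h4 : vl ψ.1.1.1 1 0 0 = 0 := Multiplicative.ofAdd.injective h3
      rw [← (tri_val h').2.2, h4]
    subst hc
    subst hc'
    exact Subtype.ext (Subtype.ext (Subtype.ext (comm0 h h')))
  refine Group.isSolvable_of_ker_le_range (g0 k).ker.subtype (g0 k) ?_
  rw [Subgroup.range_subtype]

theorem sol_tri : Group.IsSolvable (triangular k) := by
  have h1 : Group.IsSolvable (K0 k) := sol_K0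
  have h2 : Group.IsSolvable (k × k)ˣ := Group.isSolvable_of_comm mul_comm
  refine Group.isSolvable_of_ker_le_range (K0 k).subtype (f0 k).toHomUnits ?_
  rw [Subgroup.range_subtype]
  exact le_rfl

end Pool.Agent.W5h2.PA
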