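import Mathlib

/-!
# The graph of the cosets of two subgroups
-/

set_option autoImplicit false

namespace Pool.Agent.W5h2.PA

theorem acyclic_of_rank {V : Type} {T : SimpleGraph V} (f : V → ℕ)
    (h1 : ∀ u v, T.Adj u v → f u ≠ f v)
    (h2 : ∀ v u w, T.Adj v u → T.Adj v w → f u < f v → f w < f v → u = w) : T.IsAcyclic := by
  classical
  intro v c hc
  obtain ⟨x, hx, hmax⟩ : ∃ x ∈ c.support, ∀ y ∈ c.support, f y ≤ f x := by
    have hne : c.support.toFinset.Nonempty := ⟨v, by simp⟩
    obtain ⟨x, hx, hm⟩ := Finset.exists_max_image c.support.toFinset f hne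
    exact ⟨x, List.mem_toFinset.1 hx, fun y hy => hm y (List.mem_toFinset.2 hy)⟩
  obtain ⟨c', hc'⟩ : ∃ c', c' = c.rotate x hx := ⟨_, rfl⟩
  have hcy : c'.IsCycle := hc' ▸ hc.rotate hx
  have hmem : ∀ y ∈ c'.support, y ∈ c.support := by
    intro y hy
    rw [hc', SimpleGraph.Walk.mem_support_rotate_iff] at hy
    exact hy
  have hnn : ¬ c'.Nil := hcy.not_nil
  have e1 : T.Adj x c'.snd := c'.adj_snd hnn
  have e2 : T.Adj c'.penultimate x := c'.adj_penultimate hnn
  have f1 := lt_of_le_of_ne (hmax _ (hmem _ (c'.getVert_mem_support 1))) (h1 _ _ e1).symm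
  have f2 := lt_of_le_of_ne (hmax _ (hmem _ (c'.getVert_mem_support (c'.length - 1)))) (h1 _ _ e2)
  exact hcy.snd_ne_penultimate (h2 x _ _ e1 e2.symm f1 f2)

section cosets

variable {G : Type} [Group G] (A E : Subgroup G)

/-- The cosets of `A` and the cosets of `E`. -/
abbrev Vx : Type := (G ⧸ A) ⊕ (G ⧸ E)

/-- The coset graph: `g A` and `g E` are adjacent. -/
def cg : SimpleGraph (Vx A E) where
  Adj := fun u v => ∃ g : G, (u = Sum.inl (g : G ⧸ A) ∧ v = Sum.inr (g : G ⧸ E)) ∨
    (u = Sum.inr (g : G ⧸ E) ∧ v = Sum.inl (g : G ⧸ A))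
  symm := ⟨by
    rintro u v ⟨g, h | h⟩
    · exact ⟨g, Or.inr ⟨h.2, h.1⟩⟩
    · exact ⟨g, Or.inl ⟨h.2, h.1⟩⟩⟩
  loopless := ⟨by
    rintro u ⟨g, h | h⟩
    · rw [h.1] at h
      exact absurd h.2 (by simp)
    · rw [h.1] at h
      exact absurd h.2 (by simp)⟩

variable {A E}

theorem cg_adj (g : G) : (cg A E).Adj (Sum.inl (g : G ⧸ A)) (Sum.inr (g : G ⧸ E)) :=
  ⟨g, Or.inl ⟨rfl, rfl⟩⟩

theorem cg_smul (g : G) (u v : Vx A E) (h : (cg A E).Adj u v) : (cg A E).Adj (g • u) (g • v) := by
  obtain ⟨x, ⟨rfl, rfl⟩ | ⟨rfl, rfl⟩⟩ := h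
  · exact ⟨g * x, Or.inl ⟨rfl, rfl⟩⟩
  · exact ⟨g * x, Or.inr ⟨rfl, rfl⟩⟩

theorem reach_smul (g : G) {u v : Vx A E} (h : (cg A E).Reachable u v) :
    (cg A E).Reachable (g • u) (g • v) := by
  obtain ⟨p⟩ := h
  induction p with
  | nil => exact SimpleGraph.Reachable.refl _
  | cons h p ih => exact (cg_smul g _ _ h).reachable.trans ih

theorem reach_one (hgen : A ⊔ E = ⊤) (g : G) :
    (cg A E).Reachable (Sum.inl ((1 : G) : G ⧸ A)) (Sum.inl (g : G ⧸ A)) := by
  have h1 : A ⊔ E ≤ ({ carrier := {g : G | (cg A E).Reachable (Sum.inl ((1 : G) : G ⧸ A))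
                          (Sum.inl (g : G ⧸ A))}
                       one_mem' := SimpleGraph.Reachable.refl _
                       mul_mem' := by
                         intro a b ha hb
                         have h := reach_smul a hb
                         have e1 : a • (Sum.inl ((1 : G) : G ⧸ A) : Vx A E) = Sum.inl (a : G ⧸ A) := by
                           show (Sum.inl ((a * 1 : G) : G ⧸ A) : Vx A E) = _
                           rw [mul_one]
                         rw [e1] at h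
                         exact SimpleGraph.Reachable.trans ha h
                       inv_mem' := by
                         intro a ha
                         have h := reach_smul a⁻¹ ha
                         have e1 : a⁻¹ • (Sum.inl ((1 : G) : G ⧸ A) : Vx A E) =
                             Sum.inl ((a⁻¹ : G) : G ⧸ A) := by
                           show (Sum.inl ((a⁻¹ * 1 : G) : G ⧸ A) : Vx A E) = _
                           rw [mul_one]
                         have e2 : a⁻¹ • (Sum.inl (a : G ⧸ A) : Vx A E) =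
                             Sum.inl ((1 : G) : G ⧸ A) := by
                           show (Sum.inl ((a⁻¹ * a : G) : G ⧸ A) : Vx A E) = _
                           rw [inv_mul_cancel]
                         rw [e1, e2] at h
                         exact h.symm } : Subgroup G) := by
    refine sup_le ?_ ?_
    · intro a ha
      show (cg A E).Reachable _ _
      have : ((1 : G) : G ⧸ A) = (a : G ⧸ A) := by
        rw [QuotientGroup.eq, inv_one, one_mul]
        exact ha
      rw [this]
    · intro e he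
      show (cg A E).Reachable _ _
      have : ((1 : G) : G ⧸ E) = (e : G ⧸ E) := by
        rw [QuotientGroup.eq, inv_one, one_mul]
        exact he
      have h1 := (cg_adj (A := A) (E := E) 1).reachable
      rw [this] at h1
      exact h1.trans (cg_adj e).symm.reachable
  rw [hgen] at h1
  exact h1 (Subgroup.mem_top g)

theorem cg_connected (hgen : A ⊔ E = ⊤) : (cg A E).Connected := by
  have h : ∀ v : Vx A E, (cg A E).Reachable (Sum.inl ((1 : G) : G ⧸ A)) v := by
    rintro (x | x)
    · obtain ⟨g, rfl⟩ := QuotientGroup.mk_surjective x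
      exact reach_one hgen g
    · obtain ⟨g, rfl⟩ := QuotientGroup.mk_surjective x
      exact (reach_one hgen g).trans (cg_adj g).reachable
  have : Nonempty (Vx A E) := ⟨Sum.inl ((1 : G) : G ⧸ A)⟩
  exact ⟨fun u v => (h u).symm.trans (h v)⟩

/-- The coset graph is a tree if there are suitable degree functions. -/
theorem cg_tree (hgen : A ⊔ E = ⊤) (r s : G → ℕ) (hr : ∀ g, ∀ a ∈ A, r (g * a) = r g)
    (hs : ∀ g, ∀ e ∈ E, s (g * e) = s g)
    (h1 : ∀ g, ∀ a ∈ A, s g < r g → s (g * a) < r g → a ∈ E)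
    (h2 : ∀ g, ∀ e ∈ E, r g ≤ s g → r (g * e) ≤ s g → e ∈ A) : (cg A E).IsTree := by
  classical
  refine ⟨cg_connected hgen, ?_⟩
  obtain ⟨ra, hra⟩ : ∃ ra : G ⧸ A → ℕ, ∀ g : G, ra (g : G ⧸ A) = r g := by
    refine ⟨Quotient.lift r ?_, fun g => rfl⟩
    intro a b hab
    have h3 : a⁻¹ * b ∈ A := QuotientGroup.leftRel_apply.1 hab
    have := hr a _ h3
    rw [mul_inv_cancel_left] at this
    exact this.symm
  obtain ⟨sa, hsa⟩ : ∃ sa : G ⧸ E → ℕ, ∀ g : G, sa (g : G ⧸ E) = s g := by
    refine ⟨Quotient.lift s ?_, fun g => rfl⟩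
    intro a b hab
    have h3 : a⁻¹ * b ∈ E := QuotientGroup.leftRel_apply.1 hab
    have := hs a _ h3
    rw [mul_inv_cancel_left] at this
    exact this.symm
  refine acyclic_of_rank (Sum.elim (fun x => 2 * ra x) (fun x => 2 * sa x + 1)) ?_ ?_
  · rintro u v ⟨g, ⟨rfl, rfl⟩ | ⟨rfl, rfl⟩⟩
    · simp only [Sum.elim_inl, Sum.elim_inr]
      omega
    · simp only [Sum.elim_inl, Sum.elim_inr]
      omega
  · rintro v u w ⟨g, ⟨hv, rfl⟩ | ⟨hv, rfl⟩⟩ ⟨g', ⟨hv', rfl⟩ | ⟨hv', rfl⟩⟩ hu hw
    · rw [hv] at hv' hu hw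
      have e1 : (g : G ⧸ A) = (g' : G ⧸ A) := Sum.inl.inj hv'
      rw [QuotientGroup.eq] at e1
      simp only [Sum.elim_inl, Sum.elim_inr] at hu hw
      rw [hra, hsa] at hu hw
      have h4 := h1 g (g⁻¹ * g') e1 (by omega) (by rw [mul_inv_cancel_left]; omega)
      congr 1
      rw [QuotientGroup.eq]
      exact h4
    · rw [hv] at hv'
      exact absurd hv' (by simp)
    · rw [hv] at hv'
      exact absurd hv' (by simp)
    · rw [hv] at hv' hu hw
      have e1 : (g : G ⧸ E) = (g' : G ⧸ E) := Sum.inr.inj hv'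
      rw [QuotientGroup.eq] at e1
      simp only [Sum.elim_inl, Sum.elim_inr] at hu hw
      rw [hra, hsa] at hu hw
      have h4 := h2 g (g⁻¹ * g') e1 (by omega) (by rw [mul_inv_cancel_left]; omega)
      congr 1
      rw [QuotientGroup.eq]
      exact h4

end cosets

end Pool.Agent.W5h2.PA
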